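import Pool.Agent.Helper273.Sup.Defs
import Pool.Agent.Helper273.Sup.P_fixed_mem
import Pool.Agent.Helper273.Sup.P_alg_of_le
import Pool.Agent.Helper273.Sup.P_roots_indep
import Pool.Agent.Helper273.Sup.P_exists_perm_aut
import Pool.Agent.Helper273.Sup.P_exists_hom
import Pool.Agent.Helper273.Sup.P_le_step
import Pool.Agent.Helper273.Sup.P_step_stable



namespace Pool.Agent.Helper273.Sup
open IntermediateField


theorem realise2 {k K : Type*} [Field k] [Field K] [Algebra k K] [CharZero k]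
    [IsAlgClosed K] {n : ℕ} (hn : 5 ≤ n) (r : ℕ) (hr : 1 ≤ r) (x y : Fin n → K) (hx : Gen k x) (hy : IsRoots x y) :
    (∀ i, y i ∈ step r (adjoin k (Set.range x))) ∨
    ∀ π ∈ alternatingGroup (Fin n), ∃ σ : K ≃ₐ[k] K,
      (∀ b ∈ step r (adjoin k (Set.range x)), σ b = b) ∧ ∀ i, σ (y i) = y (π i) := by
  classical
  obtain ⟨ρ, hρ⟩ := exists_hom x y hx hy
  have hyi : Function.Injective y := (roots_indep x y hx hy).injective
  have hBS : adjoin k (Set.range x) ≤ step r (adjoin k (Set.range x)) := le_step r hr _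
  have hsurj : Function.Surjective ρ := by
    intro π
    obtain ⟨σ, hσ1, hσ2⟩ := exists_perm_aut x y hx hy π
    refine ⟨⟨σ, (IntermediateField.mem_fixingSubgroup_iff _ _).2 hσ1⟩, ?_⟩
    ext i
    have h := hρ ⟨σ, (IntermediateField.mem_fixingSubgroup_iff _ _).2 hσ1⟩ i
    rw [show ((⟨σ, (IntermediateField.mem_fixingSubgroup_iff _ _).2 hσ1⟩ :
      (adjoin k (Set.range x)).fixingSubgroup) : K ≃ₐ[k] K) = σ from rfl, hσ2 i] at h
    rw [hyi h]
  set N : Subgroup (adjoin k (Set.range x)).fixingSubgroup :=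
    (step r (adjoin k (Set.range x))).fixingSubgroup.subgroupOf _ with hN
  have hNmem : ∀ g : (adjoin k (Set.range x)).fixingSubgroup, g ∈ N ↔
      ∀ b ∈ step r (adjoin k (Set.range x)), (g : K ≃ₐ[k] K) b = b := by
    intro g
    rw [hN, Subgroup.mem_subgroupOf, IntermediateField.mem_fixingSubgroup_iff]
  have hNn : N.Normal := by
    constructor
    intro σ hσ g
    rw [hNmem] at hσ ⊢
    intro b hb
    have hst : ∀ a ∈ step r (adjoin k (Set.range x)),
        ((g⁻¹ : (adjoin k (Set.range x)).fixingSubgroup) : K ≃ₐ[k] K) a ∈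
          step r (adjoin k (Set.range x)) := by
      apply step_stable
      intro a ha
      have h1 := (IntermediateField.mem_fixingSubgroup_iff _ _).1 (g⁻¹).2 a ha
      rw [h1]
      exact ha
    have h2 := hσ _ (hst b hb)
    show (g : K ≃ₐ[k] K) ((σ : K ≃ₐ[k] K)
      (((g⁻¹ : (adjoin k (Set.range x)).fixingSubgroup) : K ≃ₐ[k] K) b)) = b
    rw [h2]
    have h3 : ((g * g⁻¹ : (adjoin k (Set.range x)).fixingSubgroup) : K ≃ₐ[k] K) b = b := by
      rw [mul_inv_cancel]
      rfl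
    exact h3
  have hMn : (N.map ρ).Normal := hNn.map ρ hsurj
  rcases subsingleton_or_nontrivial (N.map ρ) with hs | hnt
  · left
    intro i
    apply fixed_mem (step r (adjoin k (Set.range x))) (alg_of_le _ _ hBS hx.alg)
    intro σ hσ
    have hσB : σ ∈ (adjoin k (Set.range x)).fixingSubgroup :=
      (IntermediateField.mem_fixingSubgroup_iff _ _).2 (fun b hb => hσ b (hBS hb))
    have hσN : (⟨σ, hσB⟩ : (adjoin k (Set.range x)).fixingSubgroup) ∈ N := (hNmem _).2 hσ
    have h1 : ρ ⟨σ, hσB⟩ ∈ N.map ρ := Subgroup.mem_map_of_mem ρ hσN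
    have h2 : ρ ⟨σ, hσB⟩ = 1 := by
      have := Subsingleton.elim (⟨_, h1⟩ : N.map ρ) 1
      exact congrArg Subtype.val this
    have h3 := hρ ⟨σ, hσB⟩ i
    rw [h2] at h3
    exact h3
  · right
    intro π hπ
    have hle : alternatingGroup (Fin n) ≤ N.map ρ :=
      Equiv.Perm.alternatingGroup_le_of_normal (by simpa using hn) hnt
    obtain ⟨σ, hσN, hσ⟩ := hle hπ
    refine ⟨(σ : K ≃ₐ[k] K), (hNmem σ).1 hσN, fun i => ?_⟩
    rw [← hσ]
    exact hρ σ i

end Pool.Agent.Helper273.Sup
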