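import Mathlib
import Pool.Agent.Helper273.Sup.Defs

namespace Pool.Agent.Helper273.Sup

open IntermediateField

/-- `(-1 + √(-3)) / 2` in terms of `s = (√5 + √(-3)) / 2`, a root of `s^4 - s^2 + 4`. -/
def om {k : Type*} [Field k] (s : k) : k := (s ^ 3 + s - 2) / 4

/-- The six conics of the Valentiner group. -/
def con {k : Type*} [Field k] (s : k) : Fin 6 → Matrix (Fin 3) (Fin 3) k :=
  ![!![1, -s ^ 2 / 4, -s ^ 2 / 4; -s ^ 2 / 4, 1, -s ^ 2 / 4; -s ^ 2 / 4, -s ^ 2 / 4, 1],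
    !![1, -s ^ 2 / 4 * om s, -s ^ 2 / 4 * om s ^ 2; -s ^ 2 / 4 * om s, om s ^ 2, -s ^ 2 / 4;
      -s ^ 2 / 4 * om s ^ 2, -s ^ 2 / 4, om s],
    !![1, -s ^ 2 / 4 * om s ^ 2, -s ^ 2 / 4 * om s; -s ^ 2 / 4 * om s ^ 2, om s, -s ^ 2 / 4;
      -s ^ 2 / 4 * om s, -s ^ 2 / 4, om s ^ 2],
    !![1, 0, 0; 0, 0, s ^ 2 / 2; 0, s ^ 2 / 2, 0],
    !![0, 0, s ^ 2 / 2; 0, 1, 0; s ^ 2 / 2, 0, 0],
    !![0, s ^ 2 / 2, 0; s ^ 2 / 2, 0, 0; 0, 0, 1]]

/-- The matrix `A` permutes the six conics (up to scalars) by `π`. -/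
def Moves {k : Type*} [Field k] (s : k) (A : Matrix (Fin 3) (Fin 3) k)
    (π : Equiv.Perm (Fin 6)) : Prop :=
  A.det ≠ 0 ∧ ∀ i, ∃ c : k, c ≠ 0 ∧ A * con s i * A.transpose = c • con s (π i)

/-- `a` is fixed by all automorphisms over `k(x)` which permute the roots evenly. -/
def EvenFix (k : Type*) {K : Type*} [Field k] [Field K] [Algebra k K] {n : ℕ} (x y : Fin n → K)
    (a : K) : Prop :=
  ∀ σ : K ≃ₐ[k] K, (∀ b ∈ adjoin k (Set.range x), σ b = b) →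
    ∀ π ∈ alternatingGroup (Fin n), (∀ i, σ (y i) = y (π i)) → σ a = a

/-- `σ` acts on the matrix `M` as conjugation by the inverse of `A π`. -/
def Twisted {k K : Type*} [Field k] [Field K] [Algebra k K] (y : Fin 6 → K)
    (A : Equiv.Perm (Fin 6) → Matrix (Fin 3) (Fin 3) k) (M : Matrix (Fin 3) (Fin 3) K) : Prop :=
  ∀ σ : K ≃ₐ[k] K, ∀ π ∈ alternatingGroup (Fin 6), (∀ i, σ (y i) = y (π i)) →
    (A π).map (algebraMap k K) * M.map σ = M * (A π).map (algebraMap k K)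

/-- A projective representation of the alternating group without common eigenvector in `K ^ 3`. -/
def ProjRep (k K : Type*) [Field k] [Field K] [Algebra k K]
    (A : Equiv.Perm (Fin 6) → Matrix (Fin 3) (Fin 3) k) : Prop :=
  (∀ π, (A π).det ≠ 0) ∧
  (∀ π ∈ alternatingGroup (Fin 6), ∀ π' ∈ alternatingGroup (Fin 6),
    ∃ c : k, A (π * π') = c • (A π * A π')) ∧
  ∀ v : Fin 3 → K, v ≠ 0 → ∃ π ∈ alternatingGroup (Fin 6), ∀ c : K,
    ((A π).map (algebraMap k K)).mulVec v ≠ c • v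

end Pool.Agent.Helper273.Sup
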