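import Pool.Agent.Helper273.Six.Defs
import Pool.Agent.Helper273.Sup.P_fixed_mem
import Pool.Agent.Helper273.Sup.P_exists_perm_aut
import Pool.Agent.Helper273.Sup.P_exists_hom



namespace Pool.Agent.Helper273.Sup
open IntermediateField


theorem even_split {k K : Type*} [Field k] [Field K] [Algebra k K] [CharZero k]
    [IsAlgClosed K] {n : ℕ} (hn : 2 ≤ n) (x y : Fin n → K) (hx : Gen k x) (hy : IsRoots x y)
    (t : K) (ht : EvenFix k x y t) :
    ∃ t0 ∈ adjoin k (Set.range x), ∃ d : K, d ^ 2 ∈ adjoin k (Set.range x) ∧ t = t0 + d := by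
  obtain ⟨ρ, hρ⟩ := exists_hom x y hx hy
  have key : ∀ σ : (adjoin k (Set.range x)).fixingSubgroup, Equiv.Perm.sign (ρ σ) = 1 →
      (σ : K ≃ₐ[k] K) t = t := by
    intro σ h
    exact ht σ.1 ((IntermediateField.mem_fixingSubgroup_iff _ _).1 σ.2) (ρ σ)
      (Equiv.Perm.mem_alternatingGroup.2 h) (hρ σ)
  by_cases hodd : ∃ τ : (adjoin k (Set.range x)).fixingSubgroup, Equiv.Perm.sign (ρ τ) = -1
  · obtain ⟨τ, hτ⟩ := hodd
    have hτi : Equiv.Perm.sign (ρ τ⁻¹) = -1 := by
      rw [map_inv, map_inv, hτ]; rfl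
    have haction : ∀ σ : (adjoin k (Set.range x)).fixingSubgroup,
        ((σ : K ≃ₐ[k] K) t = t ∧ (σ : K ≃ₐ[k] K) ((τ : K ≃ₐ[k] K) t) = (τ : K ≃ₐ[k] K) t) ∨
        ((σ : K ≃ₐ[k] K) t = (τ : K ≃ₐ[k] K) t ∧
          (σ : K ≃ₐ[k] K) ((τ : K ≃ₐ[k] K) t) = t) := by
      intro σ
      rcases Int.units_eq_one_or (Equiv.Perm.sign (ρ σ)) with h | h
      · left
        refine ⟨key σ h, ?_⟩
        have h1 := key (τ⁻¹ * σ * τ) (by
          rw [map_mul, map_mul, map_mul, map_mul, hτi, h, hτ]; rfl)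
        have h2 : (τ : K ≃ₐ[k] K) (((τ⁻¹ * σ * τ :
            (adjoin k (Set.range x)).fixingSubgroup) : K ≃ₐ[k] K) t) =
            (σ : K ≃ₐ[k] K) ((τ : K ≃ₐ[k] K) t) := by
          rw [← AlgEquiv.mul_apply, ← AlgEquiv.mul_apply]
          congr 1
          rw [← Subgroup.coe_mul, ← Subgroup.coe_mul]
          congr 1
          group
        rw [← h2, h1]
      · right
        constructor
        · have h1 := key (τ⁻¹ * σ) (by rw [map_mul, map_mul, hτi, h]; rfl)
          have h2 : (τ : K ≃ₐ[k] K) (((τ⁻¹ * σ :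
              (adjoin k (Set.range x)).fixingSubgroup) : K ≃ₐ[k] K) t) =
              (σ : K ≃ₐ[k] K) t := by
            rw [← AlgEquiv.mul_apply]
            congr 1
            rw [← Subgroup.coe_mul]
            congr 1
            group
          rw [← h2, h1]
        · have h1 := key (σ * τ) (by rw [map_mul, map_mul, hτ, h]; rfl)
          rw [Subgroup.coe_mul, AlgEquiv.mul_apply] at h1
          exact h1
    set s := (τ : K ≃ₐ[k] K) t with hs
    have hchar : CharZero K := charZero_of_injective_algebraMap (algebraMap k K).injective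
    have h2 : (2 : K) ≠ 0 := two_ne_zero
    refine ⟨(t + s) / 2, ?_, (t - s) / 2, ?_, by field_simp; ring⟩
    · apply fixed_mem _ hx.alg
      intro σ hσ
      have h3 := haction ⟨σ, (IntermediateField.mem_fixingSubgroup_iff _ _).2 hσ⟩
      simp only at h3
      rw [map_div₀, map_add, map_ofNat]
      rcases h3 with ⟨e1, e2⟩ | ⟨e1, e2⟩
      · rw [e1, e2]
      · rw [e1, e2, add_comm]
    · apply fixed_mem _ hx.alg
      intro σ hσ
      have h3 := haction ⟨σ, (IntermediateField.mem_fixingSubgroup_iff _ _).2 hσ⟩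
      simp only at h3
      rw [map_pow, map_div₀, map_sub, map_ofNat]
      rcases h3 with ⟨e1, e2⟩ | ⟨e1, e2⟩
      · rw [e1, e2]
      · rw [e1, e2]; ring
  · refine ⟨t, ?_, 0, by simp, by simp⟩
    apply fixed_mem _ hx.alg
    intro σ hσ
    have h3 : Equiv.Perm.sign (ρ ⟨σ, (IntermediateField.mem_fixingSubgroup_iff _ _).2 hσ⟩) = 1 := by
      rcases Int.units_eq_one_or (Equiv.Perm.sign
        (ρ ⟨σ, (IntermediateField.mem_fixingSubgroup_iff _ _).2 hσ⟩)) with h | h
      · exact h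
      · exact absurd ⟨_, h⟩ hodd
    exact key ⟨σ, (IntermediateField.mem_fixingSubgroup_iff _ _).2 hσ⟩ h3

end Pool.Agent.Helper273.Sup
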