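import Pool.Agent.Helper273.Six.Defs



namespace Pool.Agent.Helper273.Sup
open IntermediateField


theorem step_split {k K : Type*} [Field k] [Field K] [Algebra k K]
    (M E : IntermediateField k K)
    (h : ∀ t ∈ E, ∃ t0 ∈ M, ∃ d : K, d ^ 2 ∈ M ∧ t = t0 + d) : step 1 E ≤ step 2 M := by
  unfold step
  rw [adjoin_le_iff]
  rintro a ⟨t, ht, ha⟩
  obtain ⟨t0, h0, d, hd, htd⟩ := h (t 0) (ht 0)
  apply subset_adjoin
  refine ⟨![t0, d ^ 2], ?_, ?_⟩
  · intro i
    fin_cases i
    · exact h0
    · exact hd
  · set L := adjoin k (Set.range ![t0, d ^ 2]) with hL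
    have ht0L : t0 ∈ L := subset_adjoin _ _ ⟨0, rfl⟩
    have hdL : d ^ 2 ∈ L := subset_adjoin _ _ ⟨1, rfl⟩
    have e1 : IsAlgebraic L t0 := isAlgebraic_algebraMap (⟨t0, ht0L⟩ : L)
    have e2 : IsAlgebraic L d := by
      have : IsAlgebraic L (d ^ 2) := isAlgebraic_algebraMap (⟨d ^ 2, hdL⟩ : L)
      exact this.of_pow (by norm_num)
    have e3 : IsAlgebraic L (t 0) := by
      rw [htd]; exact e1.add e2
    have hle : adjoin k (Set.range t) ≤ (algebraicClosure L K).restrictScalars k := by
      rw [adjoin_le_iff]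
      rintro _ ⟨i, rfl⟩
      have : i = 0 := Subsingleton.elim _ _
      subst this
      show t 0 ∈ algebraicClosure L K
      exact mem_algebraicClosure_iff.mpr e3
    have ha2 : IsAlgebraic (algebraicClosure L K) a := by
      letI : Algebra (adjoin k (Set.range t)) (algebraicClosure L K) :=
        (IntermediateField.inclusion hle).toRingHom.toAlgebra
      haveI : IsScalarTower (adjoin k (Set.range t)) (algebraicClosure L K) K :=
        IsScalarTower.of_algebraMap_eq (fun x => rfl)
      exact ha.extendScalars (RingHom.injective _)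
    exact ha2.restrictScalars L

end Pool.Agent.Helper273.Sup
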