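import Pool.Agent.Helper273.Six.Defs
import Pool.Agent.Helper273.Six.P_even_split
import Pool.Agent.Helper273.Six.P_step_split
import Pool.Agent.Helper273.Sup.P_cubic_mem_step



namespace Pool.Agent.Helper273.Sup
open IntermediateField


/-- the field of elements fixed by all even automorphisms -/
def evenField (k : Type*) {K : Type*} [Field k] [Field K] [Algebra k K] {n : ℕ}
    (x y : Fin n → K) : IntermediateField k K where
  carrier := {t | EvenFix k x y t}
  mul_mem' := fun {a b} ha hb σ h1 π hπ h2 => by
    rw [map_mul, ha σ h1 π hπ h2, hb σ h1 π hπ h2]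
  add_mem' := fun {a b} ha hb σ h1 π hπ h2 => by
    rw [map_add, ha σ h1 π hπ h2, hb σ h1 π hπ h2]
  algebraMap_mem' := fun r σ _ _ _ _ => σ.commutes r
  inv_mem' := fun a ha σ h1 π hπ h2 => by
    rw [map_inv₀, ha σ h1 π hπ h2]

theorem cubic_even {k K : Type*} [Field k] [Field K] [Algebra k K] [CharZero k]
    [IsAlgClosed K] {n : ℕ} (hn : 2 ≤ n) (x y : Fin n → K) (hx : Gen k x) (hy : IsRoots x y)
    (a b c z : K) (ha : EvenFix k x y a) (hb : EvenFix k x y b) (hc : EvenFix k x y c)
    (h : z ^ 3 + a * z ^ 2 + b * z + c = 0) : z ∈ step 2 (adjoin k (Set.range x)) := by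
  have h1 : z ∈ step 1 (evenField k x y) :=
    cubic_mem_step (evenField k x y) a b c z ha hb hc h
  exact step_split (adjoin k (Set.range x)) (evenField k x y)
    (fun t ht => even_split hn x y hx hy t ht) h1

end Pool.Agent.Helper273.Sup
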