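import Pool.Agent.Helper273.Six.Defs
import Pool.Agent.Helper273.Six.P_cubic_even



namespace Pool.Agent.Helper273.Sup
open IntermediateField


theorem eig_mem {k K : Type*} [Field k] [Field K] [Algebra k K] [CharZero k]
    [IsAlgClosed K] (x y : Fin 6 → K) (hx : Gen k x) (hy : IsRoots x y)
    (A : Equiv.Perm (Fin 6) → Matrix (Fin 3) (Fin 3) k) (hA : ∀ π, (A π).det ≠ 0)
    (M : Matrix (Fin 3) (Fin 3) K) (hM : Twisted y A M) (l : K) (hl : (M - l • 1).det = 0) :
    l ∈ step 2 (adjoin k (Set.range x)) := by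
  haveI : CharZero K := charZero_of_injective_algebraMap (algebraMap k K).injective
  have h2 : (2 : K) ≠ 0 := two_ne_zero
  have key : ∀ σ : K ≃ₐ[k] K, ∀ π ∈ alternatingGroup (Fin 6), (∀ i, σ (y i) = y (π i)) →
      σ M.trace = M.trace ∧ σ (M * M).trace = (M * M).trace ∧ σ M.det = M.det := by
    intro σ π hπ hyσ
    have hB := hM σ π hπ hyσ
    set B : Matrix (Fin 3) (Fin 3) K := (A π).map (algebraMap k K) with hBdef
    have hdet : B.det ≠ 0 := by
      have h1 : B.det = algebraMap k K (A π).det := by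
        rw [RingHom.map_det]
        rfl
      rw [h1]
      intro h
      exact hA π ((map_eq_zero_iff _ (algebraMap k K).injective).mp h)
    have hu : IsUnit B.det := isUnit_iff_ne_zero.mpr hdet
    set M' : Matrix (Fin 3) (Fin 3) K := M.map σ with hM'def
    have e1 : M' = B⁻¹ * (M * B) := by
      rw [← hB, ← Matrix.mul_assoc, Matrix.nonsing_inv_mul B hu, Matrix.one_mul]
    have e2 : M' * M' = B⁻¹ * ((M * M) * B) := by
      rw [e1]
      have : B * B⁻¹ = 1 := Matrix.mul_nonsing_inv B hu
      calc B⁻¹ * (M * B) * (B⁻¹ * (M * B)) = B⁻¹ * M * (B * B⁻¹) * M * B := by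
            simp only [Matrix.mul_assoc]
        _ = B⁻¹ * ((M * M) * B) := by rw [this]; simp only [Matrix.mul_assoc, Matrix.one_mul]
    have tr1 : ∀ N : Matrix (Fin 3) (Fin 3) K, (B⁻¹ * (N * B)).trace = N.trace := by
      intro N
      rw [Matrix.trace_mul_comm, Matrix.mul_assoc, Matrix.mul_nonsing_inv B hu, Matrix.mul_one]
    have t1 : σ M.trace = M'.trace := by
      rw [hM'def, Matrix.trace_fin_three, Matrix.trace_fin_three]
      simp only [Matrix.map_apply, map_add]
    have t2 : σ (M * M).trace = (M' * M').trace := by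
      rw [hM'def, Matrix.trace_fin_three, Matrix.trace_fin_three]
      simp only [Matrix.map_apply, map_add, Matrix.mul_apply, Fin.sum_univ_three, map_mul]
    have t3 : σ M.det = M'.det := by
      rw [hM'def, Matrix.det_fin_three, Matrix.det_fin_three]
      simp only [Matrix.map_apply, map_add, map_sub, map_mul]
    refine ⟨?_, ?_, ?_⟩
    · rw [t1, e1, tr1]
    · rw [t2, e2, tr1]
    · rw [t3, e1, Matrix.det_mul, Matrix.det_mul]
      have : B⁻¹.det * B.det = 1 := by
        rw [← Matrix.det_mul, Matrix.nonsing_inv_mul B hu, Matrix.det_one]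
      calc B⁻¹.det * (M.det * B.det) = (B⁻¹.det * B.det) * M.det := by ring
        _ = M.det := by rw [this, one_mul]
  refine cubic_even (by norm_num) x y hx hy (-M.trace) ((M.trace ^ 2 - (M * M).trace) / 2) (-M.det) l
    ?_ ?_ ?_ ?_
  · intro σ _ π hπ hyσ
    rw [map_neg, (key σ π hπ hyσ).1]
  · intro σ _ π hπ hyσ
    obtain ⟨k1, k2, _⟩ := key σ π hπ hyσ
    rw [map_div₀, map_sub, map_pow, k1, k2, map_ofNat]
  · intro σ _ π hπ hyσ
    rw [map_neg, (key σ π hπ hyσ).2.2]
  · rw [Matrix.det_fin_three] at hl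
    rw [Matrix.det_fin_three, Matrix.trace_fin_three, Matrix.trace_fin_three]
    simp only [Matrix.mul_apply, Fin.sum_univ_three, Matrix.sub_apply, Matrix.smul_apply,
      Matrix.one_apply, smul_eq_mul] at hl ⊢
    simp only [Fin.isValue, if_true, mul_one, mul_zero, sub_zero, reduceIte, Fin.reduceEq] at hl
    field_simp
    linear_combination (-2) * hl

end Pool.Agent.Helper273.Sup
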