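import Pool.Agent.Helper273.Six.Defs



namespace Pool.Agent.Helper273.Sup
open IntermediateField


theorem line_stable {k K : Type*} [Field k] [Field K] [Algebra k K]
    (B : Matrix (Fin 3) (Fin 3) k) (hB : B.det ≠ 0) (v : Fin 3 → K) (i0 : Fin 3)
    (h0 : v i0 = 1) (σ : K ≃ₐ[k] K) (c : K)
    (h : (B.map (algebraMap k K)).mulVec (fun i => σ (v i)) = c • v) :
    ∀ i, σ (v i) ∈ adjoin k (Set.range v) := by
  have hBi : B⁻¹ * B = 1 := Matrix.nonsing_inv_mul B (isUnit_iff_ne_zero.2 hB)
  obtain ⟨u, hu⟩ : ∃ u : Fin 3 → K, u = (B⁻¹.map (algebraMap k K)).mulVec v := ⟨_, rfl⟩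
  have hw : (fun i => σ (v i)) = c • u := by
    have h1 := congrArg (fun z => (B⁻¹.map (algebraMap k K)).mulVec z) h
    simp only [Matrix.mulVec_mulVec, Matrix.mulVec_smul] at h1
    rw [← Matrix.map_mul, hBi] at h1
    rw [← hu] at h1
    simpa using h1
  have humem : ∀ i, u i ∈ adjoin k (Set.range v) := by
    intro i
    rw [hu]
    simp only [Matrix.mulVec, dotProduct, Matrix.map_apply]
    exact sum_mem fun j _ => mul_mem (IntermediateField.algebraMap_mem _ _) (subset_adjoin _ _ ⟨j, rfl⟩)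
  have hwi : ∀ i, σ (v i) = c * u i := fun i => by
    have := congrFun hw i
    simpa using this
  have h1 : (1:K) = c * u i0 := by
    have := hwi i0
    rwa [h0, map_one] at this
  have hc : c = (u i0)⁻¹ := eq_inv_of_mul_eq_one_left h1.symm
  intro i
  rw [hwi i, hc]
  exact mul_mem (inv_mem (humem i0)) (humem i)

end Pool.Agent.Helper273.Sup
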