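import Pool.Agent.Helper273.Six.Defs



namespace Pool.Agent.Helper273.Sup
open IntermediateField


theorem normal_six {k K : Type*} [Field k] [Field K] [Algebra k K]
    (F : IntermediateField k K) (y : Fin 6 → K) (hy : Function.Injective y) (v : Fin 3 → K)
    (hev : ∀ σ : K ≃ₐ[k] K, (∀ b ∈ F, σ b = b) →
      ∃ π ∈ alternatingGroup (Fin 6), ∀ i, σ (y i) = y (π i))
    (hall : ∀ π ∈ alternatingGroup (Fin 6), ∃ σ : K ≃ₐ[k] K,
      (∀ b ∈ F, σ b = b) ∧ ∀ i, σ (y i) = y (π i))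
    (hstab : ∀ σ : K ≃ₐ[k] K, (∀ b ∈ F, σ b = b) → ∀ i, σ (v i) ∈ adjoin k (Set.range v))
    (hne : ∃ π ∈ alternatingGroup (Fin 6), ∀ σ : K ≃ₐ[k] K, (∀ b ∈ F, σ b = b) →
      (∀ i, σ (y i) = y (π i)) → ∃ i, σ (v i) ≠ v i)
    (σ : K ≃ₐ[k] K) (hσ : ∀ b ∈ F, σ b = b) (hv : ∀ i, σ (v i) = v i) (i : Fin 6) :
    σ (y i) = y i := by
  have hsymm : ∀ τ : K ≃ₐ[k] K, (∀ b ∈ F, τ b = b) → ∀ b ∈ F, τ.symm b = b := by
    intro τ hτ b hb
    rw [AlgEquiv.symm_apply_eq, hτ b hb]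
  have hysymm : ∀ (τ : K ≃ₐ[k] K) (π : Equiv.Perm (Fin 6)), (∀ i, τ (y i) = y (π i)) →
      ∀ i, τ.symm (y i) = y (π⁻¹ i) := by
    intro τ π h i
    rw [AlgEquiv.symm_apply_eq, h]
    simp
  have hadj : ∀ τ : K ≃ₐ[k] K, (∀ i, τ (v i) = v i) → ∀ b ∈ adjoin k (Set.range v), τ b = b := by
    intro τ hτ b hb
    induction hb using IntermediateField.adjoin_induction with
    | mem x hx =>
      obtain ⟨j, rfl⟩ := hx
      exact hτ j
    | algebraMap x => exact τ.commutes x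
    | add x z _ _ hx hz => rw [map_add, hx, hz]
    | inv x _ hx => rw [map_inv₀, hx]
    | mul x z _ _ hx hz => rw [map_mul, hx, hz]
  let N : Subgroup (alternatingGroup (Fin 6)) :=
    { carrier := {π | ∃ τ : K ≃ₐ[k] K, (∀ b ∈ F, τ b = b) ∧
        (∀ i, τ (y i) = y ((π : Equiv.Perm (Fin 6)) i)) ∧ ∀ i, τ (v i) = v i}
      one_mem' := ⟨AlgEquiv.refl, fun b _ => rfl, fun i => rfl, fun i => rfl⟩
      mul_mem' := by
        rintro π π' ⟨τ, h1, h2, h3⟩ ⟨τ', h1', h2', h3'⟩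
        refine ⟨τ'.trans τ, fun b hb => ?_, fun i => ?_, fun i => ?_⟩
        · rw [AlgEquiv.trans_apply, h1' b hb, h1 b hb]
        · rw [AlgEquiv.trans_apply, h2', h2]; rfl
        · rw [AlgEquiv.trans_apply, h3', h3]
      inv_mem' := by
        rintro π ⟨τ, h1, h2, h3⟩
        refine ⟨τ.symm, hsymm τ h1, ?_, fun i => ?_⟩
        · exact hysymm τ _ h2
        · rw [AlgEquiv.symm_apply_eq, h3] }
  have hN : N.Normal := by
    constructor
    rintro π ⟨τ, h1, h2, h3⟩ π'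
    obtain ⟨ρ, g1, g2⟩ := hall π' π'.2
    refine ⟨(ρ.symm.trans τ).trans ρ, fun b hb => ?_, fun i => ?_, fun i => ?_⟩
    · rw [AlgEquiv.trans_apply, AlgEquiv.trans_apply, hsymm ρ g1 b hb, h1 b hb, g1 b hb]
    · rw [AlgEquiv.trans_apply, AlgEquiv.trans_apply, hysymm ρ _ g2, h2, g2]; rfl
    · rw [AlgEquiv.trans_apply, AlgEquiv.trans_apply, hadj τ h3 _ (hstab ρ.symm (hsymm ρ g1) i),
        AlgEquiv.apply_symm_apply]
  rcases alternatingGroup.normal_subgroup_eq_bot_or_eq_top (α := Fin 6) (by simp) (N := N)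
    with h | h
  · obtain ⟨π, hπ, h2⟩ := hev σ hσ
    have hmem : (⟨π, hπ⟩ : alternatingGroup (Fin 6)) ∈ N := ⟨σ, hσ, h2, hv⟩
    rw [h, Subgroup.mem_bot] at hmem
    have : π = 1 := congrArg Subtype.val hmem
    rw [h2, this]
    rfl
  · exfalso
    obtain ⟨π, hπ, h2⟩ := hne
    have hmem : (⟨π, hπ⟩ : alternatingGroup (Fin 6)) ∈ N := by rw [h]; trivial
    obtain ⟨τ, g1, g2, g3⟩ := hmem
    obtain ⟨j, hj⟩ := h2 τ g1 g2
    exact hj (g3 j)

end Pool.Agent.Helper273.Sup
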