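import Pool.Agent.Helper273.Six.Defs



namespace Pool.Agent.Helper273.Sup
open IntermediateField


theorem rank_conj {K : Type*} [Field K] (N N' B R R' : Matrix (Fin 3) (Fin 3) K)
    (hB : B.det ≠ 0) (h : B * N' = N * B)
    (hR : (R = N ∧ R' = N') ∨ (R = N.adjugate ∧ R' = N'.adjugate)) : B * R' = R * B := by
  rcases hR with ⟨rfl, rfl⟩ | ⟨rfl, rfl⟩
  · exact h
  · have h1 : N'.adjugate * B.adjugate = B.adjugate * N.adjugate := by
      rw [← Matrix.adjugate_mul_distrib, ← Matrix.adjugate_mul_distrib, h]
    have h2 : B * (N'.adjugate * B.adjugate) * B = B * (B.adjugate * N.adjugate) * B := by rw [h1]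
    have h3 : B * (N'.adjugate * B.adjugate) * B = B.det • (B * N'.adjugate) := by
      rw [show B * (N'.adjugate * B.adjugate) * B = (B * N'.adjugate) * (B.adjugate * B) by
        simp only [Matrix.mul_assoc], Matrix.adjugate_mul, Matrix.mul_smul, Matrix.mul_one]
    have h4 : B * (B.adjugate * N.adjugate) * B = B.det • (N.adjugate * B) := by
      rw [← Matrix.mul_assoc, Matrix.mul_adjugate, Matrix.smul_mul, Matrix.smul_mul,
        Matrix.one_mul]
    rw [h3, h4] at h2
    exact smul_right_injective _ hB h2

end Pool.Agent.Helper273.Sup
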