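import Pool.Agent.Helper273.Six.Defs



namespace Pool.Agent.Helper273.Sup
open IntermediateField


theorem rank_one_key {K : Type*} [Field K] (R : Matrix (Fin 3) (Fin 3) K)
    (m0101 : R 0 0 * R 1 1 = R 0 1 * R 1 0)
    (m0102 : R 0 0 * R 1 2 = R 0 2 * R 1 0)
    (m0112 : R 0 1 * R 1 2 = R 0 2 * R 1 1)
    (m0201 : R 0 0 * R 2 1 = R 0 1 * R 2 0)
    (m0202 : R 0 0 * R 2 2 = R 0 2 * R 2 0)
    (m0212 : R 0 1 * R 2 2 = R 0 2 * R 2 1)
    (m1201 : R 1 0 * R 2 1 = R 1 1 * R 2 0)
    (m1202 : R 1 0 * R 2 2 = R 1 2 * R 2 0)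
    (m1212 : R 1 1 * R 2 2 = R 1 2 * R 2 1) :
    ∀ i j a b, R i j * R a b = R i b * R a j := by
  intro i j a b
  fin_cases i <;> fin_cases j <;> fin_cases a <;> fin_cases b <;>
    simp only [Fin.zero_eta, Fin.mk_one, Fin.reduceFinMk, Fin.isValue] <;>
    first | ring1 | linear_combination m0101 | linear_combination m0102 | linear_combination m0112 | linear_combination m0201 | linear_combination m0202 | linear_combination m0212 | linear_combination m1201 | linear_combination m1202 | linear_combination m1212 | linear_combination -m0101 | linear_combination -m0102 | linear_combination -m0112 | linear_combination -m0201 | linear_combination -m0202 | linear_combination -m0212 | linear_combination -m1201 | linear_combination -m1202 | linear_combination -m1212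

theorem rank_one {K : Type*} [Field K] (N : Matrix (Fin 3) (Fin 3) K) (h0 : N ≠ 0)
    (hd : N.det = 0) : ∃ R : Matrix (Fin 3) (Fin 3) K, (R = N ∨ R = N.adjugate) ∧ R ≠ 0 ∧
      ∀ i j a b, R i j * R a b = R i b * R a j := by
  classical
  have hd' := hd
  rw [Matrix.det_fin_three] at hd'
  have e00 : N.adjugate 0 0 = N 1 1 * N 2 2 - N 1 2 * N 2 1 := by
    rw [Matrix.adjugate_fin_three]; rfl
  have e01 : N.adjugate 0 1 = -(N 0 1 * N 2 2) + N 0 2 * N 2 1 := by
    rw [Matrix.adjugate_fin_three]; rfl
  have e02 : N.adjugate 0 2 = N 0 1 * N 1 2 - N 0 2 * N 1 1 := by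
    rw [Matrix.adjugate_fin_three]; rfl
  have e10 : N.adjugate 1 0 = -(N 1 0 * N 2 2) + N 1 2 * N 2 0 := by
    rw [Matrix.adjugate_fin_three]; rfl
  have e11 : N.adjugate 1 1 = N 0 0 * N 2 2 - N 0 2 * N 2 0 := by
    rw [Matrix.adjugate_fin_three]; rfl
  have e12 : N.adjugate 1 2 = -(N 0 0 * N 1 2) + N 0 2 * N 1 0 := by
    rw [Matrix.adjugate_fin_three]; rfl
  have e20 : N.adjugate 2 0 = N 1 0 * N 2 1 - N 1 1 * N 2 0 := by
    rw [Matrix.adjugate_fin_three]; rfl
  have e21 : N.adjugate 2 1 = -(N 0 0 * N 2 1) + N 0 1 * N 2 0 := by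
    rw [Matrix.adjugate_fin_three]; rfl
  have e22 : N.adjugate 2 2 = N 0 0 * N 1 1 - N 0 1 * N 1 0 := by
    rw [Matrix.adjugate_fin_three]; rfl
  by_cases hadj : N.adjugate = 0
  · refine ⟨N, Or.inl rfl, h0, ?_⟩
    have z00 : N.adjugate 0 0 = 0 := by rw [hadj]; rfl
    rw [e00] at z00
    have z01 : N.adjugate 0 1 = 0 := by rw [hadj]; rfl
    rw [e01] at z01
    have z02 : N.adjugate 0 2 = 0 := by rw [hadj]; rfl
    rw [e02] at z02
    have z10 : N.adjugate 1 0 = 0 := by rw [hadj]; rfl
    rw [e10] at z10
    have z11 : N.adjugate 1 1 = 0 := by rw [hadj]; rfl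
    rw [e11] at z11
    have z12 : N.adjugate 1 2 = 0 := by rw [hadj]; rfl
    rw [e12] at z12
    have z20 : N.adjugate 2 0 = 0 := by rw [hadj]; rfl
    rw [e20] at z20
    have z21 : N.adjugate 2 1 = 0 := by rw [hadj]; rfl
    rw [e21] at z21
    have z22 : N.adjugate 2 2 = 0 := by rw [hadj]; rfl
    rw [e22] at z22
    exact rank_one_key N (by linear_combination z22) (by linear_combination -z12) (by linear_combination z02) (by linear_combination -z21) (by linear_combination z11) (by linear_combination -z01) (by linear_combination z20) (by linear_combination -z10) (by linear_combination z00)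
  · refine ⟨N.adjugate, Or.inr rfl, hadj, ?_⟩
    apply rank_one_key
    all_goals
      simp only [e00, e01, e02, e10, e11, e12, e20, e21, e22]
      first | linear_combination (N 0 0) * hd' | linear_combination (N 0 1) * hd' | linear_combination (N 0 2) * hd' | linear_combination (N 1 0) * hd' | linear_combination (N 1 1) * hd' | linear_combination (N 1 2) * hd' | linear_combination (N 2 0) * hd' | linear_combination (N 2 1) * hd' | linear_combination (N 2 2) * hd' | linear_combination -(N 0 0) * hd' | linear_combination -(N 0 1) * hd' | linear_combination -(N 0 2) * hd' | linear_combination -(N 1 0) * hd' | linear_combination -(N 1 1) * hd' | linear_combination -(N 1 2) * hd' | linear_combination -(N 2 0) * hd' | linear_combination -(N 2 1) * hd' | linear_combination -(N 2 2) * hd'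

end Pool.Agent.Helper273.Sup
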