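import Pool.Agent.Helper273.Six.Defs
import Pool.Agent.Helper273.Six.P_rank_one
import Pool.Agent.Helper273.Six.P_rank_conj



namespace Pool.Agent.Helper273.Sup
open IntermediateField


theorem proj_line {k K : Type*} [Field k] [Field K] [Algebra k K] [IsAlgClosed K]
    (A : Equiv.Perm (Fin 6) → Matrix (Fin 3) (Fin 3) k) (hA : ∀ π, (A π).det ≠ 0)
    (y : Fin 6 → K) (F : IntermediateField k K) (M : Matrix (Fin 3) (Fin 3) K)
    (hM0 : ∀ c : K, M ≠ c • 1) (hM : Twisted y A M)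
    (hF : ∀ l : K, (M - l • 1).det = 0 → l ∈ F) :
    ∃ (v : Fin 3 → K) (i0 : Fin 3), v i0 = 1 ∧
      ∀ σ : K ≃ₐ[k] K, (∀ b ∈ F, σ b = b) → ∀ π ∈ alternatingGroup (Fin 6),
        (∀ i, σ (y i) = y (π i)) →
        ∃ c : K, ((A π).map (algebraMap k K)).mulVec (fun i => σ (v i)) = c • v := by
  obtain ⟨l, hl⟩ : ∃ l : K, (M - l • (1 : Matrix (Fin 3) (Fin 3) K)).det = 0 := by
    have hdeg : M.charpoly.degree ≠ 0 := by
      rw [Matrix.charpoly_degree_eq_dim]; simp
    obtain ⟨l, hl⟩ := IsAlgClosed.exists_root M.charpoly hdeg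
    refine ⟨l, ?_⟩
    rw [Polynomial.IsRoot.def, Matrix.eval_charpoly] at hl
    have h1 : M - l • (1 : Matrix (Fin 3) (Fin 3) K) = -(Matrix.scalar (Fin 3) l - M) := by
      rw [neg_sub, Matrix.smul_one_eq_diagonal]; rfl
    rw [h1, Matrix.det_neg, hl, mul_zero]
  have hlF := hF l hl
  have hN0 : M - l • (1 : Matrix (Fin 3) (Fin 3) K) ≠ 0 := fun h => hM0 l (sub_eq_zero.mp h)
  obtain ⟨R, hR, hR0, hrk⟩ := rank_one _ hN0 hl
  obtain ⟨i0, j0, hij⟩ : ∃ i0 j0, R i0 j0 ≠ 0 := by
    by_contra hc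
    push Not at hc
    exact hR0 (Matrix.ext hc)
  refine ⟨fun i => R i j0 / R i0 j0, i0, div_self hij, ?_⟩
  intro σ hσF π hπ hσy
  have hB : ((A π).map (algebraMap k K)).det ≠ 0 := by
    have h1 : ((A π).map (algebraMap k K)).det = algebraMap k K (A π).det := by
      rw [RingHom.map_det]; rfl
    rw [h1]
    exact (map_ne_zero _).mpr (hA π)
  have hMB := hM σ π hπ hσy
  have hNσ : (M - l • (1 : Matrix (Fin 3) (Fin 3) K)).map σ =
      M.map σ - l • (1 : Matrix (Fin 3) (Fin 3) K) := by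
    ext i j
    simp only [Matrix.map_apply, Matrix.sub_apply, Matrix.smul_apply, map_sub, smul_eq_mul,
      map_mul, hσF l hlF]
    congr 2
    by_cases h : i = j
    · subst h; simp
    · simp [Matrix.one_apply_ne h]
  have hBN : (A π).map (algebraMap k K) * (M - l • (1 : Matrix (Fin 3) (Fin 3) K)).map σ =
      (M - l • (1 : Matrix (Fin 3) (Fin 3) K)) * (A π).map (algebraMap k K) := by
    rw [hNσ, mul_sub, sub_mul, hMB, mul_smul_comm, smul_mul_assoc, mul_one, one_mul]
  have hBR : (A π).map (algebraMap k K) * R.map σ = R * (A π).map (algebraMap k K) := by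
    refine rank_conj _ _ _ R (R.map σ) hB hBN ?_
    rcases hR with h | h
    · left
      exact ⟨h, by rw [h]⟩
    · right
      refine ⟨h, ?_⟩
      rw [h]
      have := RingHom.map_adjugate (σ : K →+* K) (M - l • (1 : Matrix (Fin 3) (Fin 3) K))
      exact this
  have hσ0 : σ (R i0 j0) ≠ 0 := (map_ne_zero _).mpr hij
  refine ⟨(∑ b, R i0 b * ((A π).map (algebraMap k K)) b j0) / σ (R i0 j0), ?_⟩
  ext i
  have e1 : ((A π).map (algebraMap k K) * R.map σ) i j0 =
      (R * (A π).map (algebraMap k K)) i j0 := by rw [hBR]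
  rw [Matrix.mul_apply, Matrix.mul_apply] at e1
  rw [Matrix.mulVec, dotProduct, Pi.smul_apply, smul_eq_mul]
  have e2 : ∑ b, ((A π).map (algebraMap k K)) i b * σ (R b j0 / R i0 j0) =
      (∑ b, ((A π).map (algebraMap k K)) i b * (R.map σ) b j0) / σ (R i0 j0) := by
    rw [Finset.sum_div]
    refine Finset.sum_congr rfl (fun b _ => ?_)
    rw [map_div₀, mul_div_assoc]; rfl
  rw [e2, e1]
  have e3 : ∑ b, R i b * ((A π).map (algebraMap k K)) b j0 =
      (R i j0 / R i0 j0) * ∑ b, R i0 b * ((A π).map (algebraMap k K)) b j0 := by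
    rw [Finset.mul_sum]
    refine Finset.sum_congr rfl (fun b _ => ?_)
    have h2 := hrk i b i0 j0
    have h3 : R i b = R i j0 / R i0 j0 * R i0 b := by
      field_simp
      linear_combination h2
    rw [h3]; ring
  rw [e3]; ring

end Pool.Agent.Helper273.Sup
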