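import Pool.Agent.Helper273.Six.Defs



namespace Pool.Agent.Helper273.Sup
open IntermediateField


/-- exponents -/
def mi_e0 : Fin 6 → ℕ := ![1, 2, 3, 4, 0, 0]

/-- exponent vector -/
noncomputable def mi_E (σ : Equiv.Perm (Fin 6)) : Fin 6 →₀ ℕ :=
  Finsupp.equivFunOnFinite.symm (fun j => mi_e0 (σ.symm j))

theorem mi_perm (π : Equiv.Perm (Fin 6)) (h0 : π 0 = 0) (h1 : π 1 = 1) (h2 : π 2 = 2)
    (h3 : π 3 = 3) (hs : Equiv.Perm.sign π = 1) : π = 1 := by
  have hm : ∀ m : Fin 6, m ≠ 0 → m ≠ 1 → m ≠ 2 → m ≠ 3 → m = 4 ∨ m = 5 := by decide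
  have hne : ∀ a b : Fin 6, a ≠ b → π b = b → π a ≠ b := by
    intro a b hab hb h
    exact hab (π.injective (h.trans hb.symm))
  have h4 : π 4 = 4 ∨ π 4 = 5 := hm _ (hne _ _ (by decide) h0) (hne _ _ (by decide) h1)
    (hne _ _ (by decide) h2) (hne _ _ (by decide) h3)
  have h5 : π 5 = 4 ∨ π 5 = 5 := hm _ (hne _ _ (by decide) h0) (hne _ _ (by decide) h1)
    (hne _ _ (by decide) h2) (hne _ _ (by decide) h3)
  have h45 : π 4 ≠ π 5 := fun h => absurd (π.injective h) (by decide)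
  rcases h4 with h4 | h4
  · have h5' : π 5 = 5 := by
      rcases h5 with h5 | h5
      · exact absurd (h4.trans h5.symm) h45
      · exact h5
    refine Equiv.ext fun j => ?_
    fin_cases j <;> assumption
  · have h5' : π 5 = 4 := by
      rcases h5 with h5 | h5
      · exact h5
      · exact absurd (h4.trans h5.symm) h45
    have hπ : π = Equiv.swap 4 5 := by
      refine Equiv.ext fun j => ?_
      have e0 : (Equiv.swap (4 : Fin 6) 5) 0 = 0 := by decide
      have e1 : (Equiv.swap (4 : Fin 6) 5) 1 = 1 := by decide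
      have e2 : (Equiv.swap (4 : Fin 6) 5) 2 = 2 := by decide
      have e3 : (Equiv.swap (4 : Fin 6) 5) 3 = 3 := by decide
      have e4 : (Equiv.swap (4 : Fin 6) 5) 4 = 5 := by decide
      have e5 : (Equiv.swap (4 : Fin 6) 5) 5 = 4 := by decide
      fin_cases j
      · exact h0.trans e0.symm
      · exact h1.trans e1.symm
      · exact h2.trans e2.symm
      · exact h3.trans e3.symm
      · exact h4.trans e4.symm
      · exact h5'.trans e5.symm
    rw [hπ, Equiv.Perm.sign_swap (by decide)] at hs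
    exact absurd hs (by decide)

theorem mi_inj (σ τ : alternatingGroup (Fin 6))
    (h : mi_E (σ : Equiv.Perm (Fin 6)) = mi_E (τ : Equiv.Perm (Fin 6))) : σ = τ := by
  have hj : ∀ j, mi_e0 ((σ : Equiv.Perm (Fin 6)).symm j) = mi_e0 ((τ : Equiv.Perm (Fin 6)).symm j) :=
    fun j => DFunLike.congr_fun h j
  have hi : ∀ i, mi_e0 i = mi_e0 ((τ : Equiv.Perm (Fin 6)).symm ((σ : Equiv.Perm (Fin 6)) i)) := by
    intro i
    have := hj ((σ : Equiv.Perm (Fin 6)) i)
    rwa [Equiv.symm_apply_apply] at this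
  have d0 : ∀ m : Fin 6, mi_e0 0 = mi_e0 m → m = 0 := by decide
  have d1 : ∀ m : Fin 6, mi_e0 1 = mi_e0 m → m = 1 := by decide
  have d2 : ∀ m : Fin 6, mi_e0 2 = mi_e0 m → m = 2 := by decide
  have d3 : ∀ m : Fin 6, mi_e0 3 = mi_e0 m → m = 3 := by decide
  have hmem : (τ : Equiv.Perm (Fin 6))⁻¹ * (σ : Equiv.Perm (Fin 6)) ∈ alternatingGroup (Fin 6) :=
    (alternatingGroup (Fin 6)).mul_mem ((alternatingGroup (Fin 6)).inv_mem τ.2) σ.2
  have h1 : (τ : Equiv.Perm (Fin 6))⁻¹ * (σ : Equiv.Perm (Fin 6)) = 1 :=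
    mi_perm _ (d0 _ (hi 0)) (d1 _ (hi 1)) (d2 _ (hi 2)) (d3 _ (hi 3))
      (Equiv.Perm.mem_alternatingGroup.mp hmem)
  apply Subtype.ext
  exact (inv_mul_eq_one.mp h1).symm

theorem mi_mon {k : Type*} [Field k] (σ : Equiv.Perm (Fin 6)) :
    (MvPolynomial.X (σ 0) * MvPolynomial.X (σ 1) ^ 2 * MvPolynomial.X (σ 2) ^ 3 *
      MvPolynomial.X (σ 3) ^ 4 : MvPolynomial (Fin 6) k) = MvPolynomial.monomial (mi_E σ) 1 := by
  rw [MvPolynomial.monomial_eq, Finsupp.prod_fintype _ _ (fun i => pow_zero _)]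
  have h1 : (∏ j, (MvPolynomial.X j : MvPolynomial (Fin 6) k) ^ (mi_E σ j)) =
      ∏ i, (MvPolynomial.X (σ i) : MvPolynomial (Fin 6) k) ^ (mi_e0 i) := by
    rw [← Equiv.prod_comp σ]
    refine Finset.prod_congr rfl fun i _ => ?_
    simp [mi_E]
  rw [h1, Fin.prod_univ_six]
  simp [mi_e0]

theorem mon_indep {k K : Type*} [Field k] [Field K] [Algebra k K] (y : Fin 6 → K)
    (hy : AlgebraicIndependent k y) (c : alternatingGroup (Fin 6) → k)
    (h : ∑ g : alternatingGroup (Fin 6), algebraMap k K (c g) *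
      (y ((g : Equiv.Perm (Fin 6)) 0) * y ((g : Equiv.Perm (Fin 6)) 1) ^ 2 *
        y ((g : Equiv.Perm (Fin 6)) 2) ^ 3 * y ((g : Equiv.Perm (Fin 6)) 3) ^ 4) = 0) :
    ∀ g, c g = 0 := by
  classical
  have hP : (∑ g : alternatingGroup (Fin 6),
      MvPolynomial.monomial (mi_E (g : Equiv.Perm (Fin 6))) (c g) : MvPolynomial (Fin 6) k) = 0 := by
    apply hy
    rw [map_zero, map_sum, ← h]
    refine Finset.sum_congr rfl fun g _ => ?_
    have h1 : (MvPolynomial.monomial (mi_E (g : Equiv.Perm (Fin 6))) (c g) :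
        MvPolynomial (Fin 6) k) = MvPolynomial.C (c g) *
          MvPolynomial.monomial (mi_E (g : Equiv.Perm (Fin 6))) 1 := by
      rw [MvPolynomial.C_mul_monomial, mul_one]
    rw [h1, ← mi_mon]
    simp
  intro g
  have h2 := congrArg (MvPolynomial.coeff (mi_E (g : Equiv.Perm (Fin 6)))) hP
  rw [MvPolynomial.coeff_sum, MvPolynomial.coeff_zero, Finset.sum_eq_single g] at h2
  · rwa [MvPolynomial.coeff_monomial, if_pos rfl] at h2
  · intro g' _ hg'
    rw [MvPolynomial.coeff_monomial, if_neg]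
    intro he
    exact hg' (mi_inj _ _ he)
  · intro hg
    exact absurd (Finset.mem_univ g) hg

end Pool.Agent.Helper273.Sup
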