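import Pool.Agent.Helper273.Six.Defs
import Pool.Agent.Helper273.Six.P_mon_indep



namespace Pool.Agent.Helper273.Sup
open IntermediateField


/-- the monomials -/
def h396_mon {K : Type*} [Field K] (y : Fin 6 → K) (g : Equiv.Perm (Fin 6)) : K :=
  y (g 0) * y (g 1) ^ 2 * y (g 2) ^ 3 * y (g 3) ^ 4

/-- a matrix which is not scalar -/
def h396_N (k : Type*) [Field k] : Matrix (Fin 3) (Fin 3) k := Matrix.diagonal ![1, 0, 0]

/-- its conjugates -/
noncomputable def h396_B {k : Type*} [Field k] (A : Equiv.Perm (Fin 6) → Matrix (Fin 3) (Fin 3) k)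
    (g : Equiv.Perm (Fin 6)) : Matrix (Fin 3) (Fin 3) k := A g * h396_N k * (A g)⁻¹

theorem h396_conj {k : Type*} [Field k] (P Q R N : Matrix (Fin 3) (Fin 3) k) (c : k)
    (hQ : Q.det ≠ 0) (hR : R.det ≠ 0) (h : R = c • (P * Q)) :
    P * (Q * N * Q⁻¹) = R * N * R⁻¹ * P := by
  have hc : c ≠ 0 := by
    intro h0
    rw [h0, zero_smul] at h
    rw [h, Matrix.det_zero] at hR
    exact hR rfl
  have hQu : IsUnit Q.det := isUnit_iff_ne_zero.2 hQ
  have hRu : IsUnit R.det := isUnit_iff_ne_zero.2 hR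
  have hPQ : P * Q = c⁻¹ • R := by
    rw [h, smul_smul, inv_mul_cancel₀ hc, one_smul]
  have h1 : P * (Q * N * Q⁻¹) * Q = c⁻¹ • (R * N) := by
    calc P * (Q * N * Q⁻¹) * Q = P * Q * N * (Q⁻¹ * Q) := by
          simp only [Matrix.mul_assoc]
      _ = c⁻¹ • (R * N) := by
          rw [Matrix.nonsing_inv_mul Q hQu, Matrix.mul_one, hPQ, Matrix.smul_mul]
  have h2 : R * N * R⁻¹ * P * Q = c⁻¹ • (R * N) := by
    calc R * N * R⁻¹ * P * Q = R * N * R⁻¹ * (P * Q) := by
          simp only [Matrix.mul_assoc]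
      _ = c⁻¹ • (R * N * (R⁻¹ * R)) := by
          rw [hPQ, Matrix.mul_smul]
          simp only [Matrix.mul_assoc]
      _ = c⁻¹ • (R * N) := by
          rw [Matrix.nonsing_inv_mul R hRu, Matrix.mul_one]
  have h3 : P * (Q * N * Q⁻¹) * Q * Q⁻¹ = R * N * R⁻¹ * P * Q * Q⁻¹ := by rw [h1, h2]
  rwa [Matrix.mul_assoc _ Q Q⁻¹, Matrix.mul_assoc _ Q Q⁻¹, Matrix.mul_nonsing_inv Q hQu,
    Matrix.mul_one, Matrix.mul_one] at h3

theorem twist {k K : Type*} [Field k] [Field K] [Algebra k K]
    (A : Equiv.Perm (Fin 6) → Matrix (Fin 3) (Fin 3) k) (hA : ∀ π, (A π).det ≠ 0)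
    (hm : ∀ π ∈ alternatingGroup (Fin 6), ∀ π' ∈ alternatingGroup (Fin 6),
      ∃ c : k, A (π * π') = c • (A π * A π'))
    (y : Fin 6 → K) (hy : AlgebraicIndependent k y) :
    ∃ M : Matrix (Fin 3) (Fin 3) K, (∀ c : K, M ≠ c • 1) ∧ Twisted y A M := by
  obtain ⟨M, hM⟩ : ∃ M : Matrix (Fin 3) (Fin 3) K,
      M = ∑ g : alternatingGroup (Fin 6), h396_mon y (g : Equiv.Perm (Fin 6)) •
        (h396_B A (g : Equiv.Perm (Fin 6))).map (algebraMap k K) := ⟨_, rfl⟩
  have hent : ∀ i j, M i j = ∑ g : alternatingGroup (Fin 6),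
      algebraMap k K (h396_B A (g : Equiv.Perm (Fin 6)) i j) *
        h396_mon y (g : Equiv.Perm (Fin 6)) := by
    intro i j
    rw [hM, Matrix.sum_apply]
    refine Finset.sum_congr rfl fun g _ => ?_
    rw [Matrix.smul_apply, Matrix.map_apply, smul_eq_mul, mul_comm]
  refine ⟨M, ?_, ?_⟩
  · intro c hc
    have hoff : ∀ i j, i ≠ j → h396_B A 1 i j = 0 := by
      intro i j hij
      have h1 := hent i j
      rw [hc, Matrix.smul_apply, Matrix.one_apply_ne hij, smul_zero] at h1
      exact mon_indep y hy (fun g => h396_B A (g : Equiv.Perm (Fin 6)) i j) h1.symm 1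
    have hdiag : ∀ i j, h396_B A 1 i i = h396_B A 1 j j := by
      intro i j
      have h1 := hent i i
      have h2 := hent j j
      rw [hc, Matrix.smul_apply, Matrix.one_apply_eq] at h1 h2
      have h3 : ∑ g : alternatingGroup (Fin 6),
          algebraMap k K (h396_B A (g : Equiv.Perm (Fin 6)) i i -
            h396_B A (g : Equiv.Perm (Fin 6)) j j) *
          h396_mon y (g : Equiv.Perm (Fin 6)) = 0 := by
        have h4 : ∀ g : alternatingGroup (Fin 6),
            algebraMap k K (h396_B A (g : Equiv.Perm (Fin 6)) i i -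
              h396_B A (g : Equiv.Perm (Fin 6)) j j) * h396_mon y (g : Equiv.Perm (Fin 6)) =
            algebraMap k K (h396_B A (g : Equiv.Perm (Fin 6)) i i) *
              h396_mon y (g : Equiv.Perm (Fin 6)) -
            algebraMap k K (h396_B A (g : Equiv.Perm (Fin 6)) j j) *
              h396_mon y (g : Equiv.Perm (Fin 6)) := by
          intro g
          rw [map_sub, sub_mul]
        rw [Finset.sum_congr rfl fun g _ => h4 g, Finset.sum_sub_distrib, ← h1, ← h2, sub_self]
      have h5 := mon_indep y hy (fun g => h396_B A (g : Equiv.Perm (Fin 6)) i i -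
            h396_B A (g : Equiv.Perm (Fin 6)) j j) h3 1
      exact sub_eq_zero.1 h5
    have hB : h396_B A 1 = (h396_B A 1 0 0) • (1 : Matrix (Fin 3) (Fin 3) k) := by
      ext i j
      rw [Matrix.smul_apply, smul_eq_mul]
      by_cases hij : i = j
      · rw [hij, Matrix.one_apply_eq, mul_one]
        exact hdiag j 0
      · rw [Matrix.one_apply_ne hij, mul_zero]
        exact hoff i j hij
    have hAu : IsUnit (A 1).det := isUnit_iff_ne_zero.2 (hA 1)
    have hN : h396_N k = (h396_B A 1 0 0) • (1 : Matrix (Fin 3) (Fin 3) k) := by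
      have h1 : (A 1)⁻¹ * h396_B A 1 * A 1 = h396_N k := by
        unfold h396_B
        calc (A 1)⁻¹ * (A 1 * h396_N k * (A 1)⁻¹) * A 1 =
              ((A 1)⁻¹ * A 1) * h396_N k * ((A 1)⁻¹ * A 1) := by
              simp only [Matrix.mul_assoc]
          _ = h396_N k := by
              rw [Matrix.nonsing_inv_mul _ hAu, Matrix.mul_one, Matrix.one_mul]
      rw [← h1]
      generalize h396_B A 1 0 0 = b at hB ⊢
      rw [hB, Matrix.mul_smul, Matrix.smul_mul, Matrix.mul_one, Matrix.nonsing_inv_mul _ hAu]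
    have h00 : h396_N k 0 0 = 1 := by simp [h396_N]
    have h11 : h396_N k 1 1 = 0 := by simp [h396_N]
    generalize h396_B A 1 0 0 = b at hN
    rw [hN, Matrix.smul_apply, Matrix.one_apply_eq] at h00 h11
    rw [h00] at h11
    exact one_ne_zero h11
  · intro σ π hπ hσ
    have hMσ : M.map σ = ∑ g : alternatingGroup (Fin 6),
        h396_mon y (π * (g : Equiv.Perm (Fin 6))) •
          (h396_B A (g : Equiv.Perm (Fin 6))).map (algebraMap k K) := by
      ext i j
      rw [Matrix.map_apply, hent, map_sum, Matrix.sum_apply]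
      refine Finset.sum_congr rfl fun g _ => ?_
      rw [Matrix.smul_apply, Matrix.map_apply, smul_eq_mul, map_mul, AlgEquiv.commutes, mul_comm]
      unfold h396_mon
      rw [map_mul, map_mul, map_mul, map_pow, map_pow, map_pow, hσ, hσ, hσ, hσ]
      rfl
    have hconj : ∀ g : alternatingGroup (Fin 6), A π * h396_B A (g : Equiv.Perm (Fin 6)) =
        h396_B A (π * (g : Equiv.Perm (Fin 6))) * A π := by
      intro g
      obtain ⟨c, hc⟩ := hm π hπ (g : Equiv.Perm (Fin 6)) g.2
      exact h396_conj (A π) (A g) (A (π * g)) (h396_N k) c (hA _) (hA _) hc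
    have hMπ : M = ∑ g : alternatingGroup (Fin 6),
        h396_mon y (π * (g : Equiv.Perm (Fin 6))) •
          (h396_B A (π * (g : Equiv.Perm (Fin 6)))).map (algebraMap k K) := by
      rw [hM]
      symm
      exact Fintype.sum_equiv (Equiv.mulLeft (⟨π, hπ⟩ : alternatingGroup (Fin 6))) _ _
        (fun g => rfl)
    rw [hMσ, Matrix.mul_sum]
    conv_rhs => rw [hMπ, Matrix.sum_mul]
    refine Finset.sum_congr rfl fun g _ => ?_
    rw [Matrix.mul_smul, Matrix.smul_mul, ← Matrix.map_mul, ← Matrix.map_mul, hconj g]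

end Pool.Agent.Helper273.Sup
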