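import Pool.Agent.Helper273.Six.Defs



namespace Pool.Agent.Helper273.Sup
open IntermediateField


/-- tables of the three generators -/
def gen_six_step (i : Fin 3) (x : Fin 6) : Fin 6 :=
  (![![1, 2, 0, 3, 4, 5], ![0, 1, 2, 5, 3, 4], ![0, 4, 5, 3, 1, 2]] : Fin 3 → Fin 6 → Fin 6) i x

def gen_six_tab : List (List (Fin 3)) :=
    [[], [], [], [], [], [], [], [], [], [1, 0, 0, 2, 0, 2, 0], [0, 0, 2, 0, 2, 0], [2, 0, 2, 0, 2,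
    0, 0], [], [2, 0, 2, 1, 0, 2, 1, 2, 0], [], [2, 1, 1, 2], [2, 1, 2, 1, 2], [1, 2, 1, 1, 2], [],
    [2, 1, 2], [1, 0, 2, 0, 2, 0, 0], [], [1, 2], [2, 1, 0, 2, 0, 2, 0, 0], [], [1, 1, 2, 1, 2],
    [0, 2, 0, 2, 0, 0], [0, 0, 2, 1, 0, 2, 0, 0], [], [2], [], [1, 2, 1, 2], [2, 1, 2, 1, 1, 2],
    [1, 1, 2], [0, 2, 1, 0, 2, 1, 2, 0], [], [], [], [2, 0, 2, 1, 0, 2, 1, 2], [2, 1, 2, 0, 0], [2,
    0, 0, 2, 0, 2], [1, 2, 1, 2, 0, 0], [], [], [], [], [], [], [0], [], [], [1, 2, 0, 2, 0], [2,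
    0, 2, 0], [2, 0, 0, 2, 0], [2, 0, 0, 2, 1, 0, 2], [], [0, 2, 1, 2], [], [1, 0, 2], [2, 0, 2, 1,
    0, 2], [1, 2, 0, 2, 0, 2], [], [1, 1, 0, 2, 1, 2], [2, 1, 0, 2, 0, 0], [], [0, 2], [2, 0, 2, 0,
    2], [], [1, 0, 2, 1, 2], [1, 1, 0, 2], [1, 2, 0, 2, 1, 0, 2], [], [], [0, 0], [], [1, 0, 2, 0,
    2, 0], [0, 2, 0, 2, 0], [0, 2, 0, 0, 2, 0], [2, 1, 2, 1, 0, 2, 0, 2], [], [], [0, 2, 1, 2, 0,
    0], [2, 1, 1, 2, 1, 0, 2], [1, 0, 2, 1, 2, 0, 0], [], [], [], [], [], [], [2, 1, 1, 2, 0], [1,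
    2, 0, 2, 0, 0], [], [], [1, 0, 0, 2], [2, 1, 1, 0, 0, 2, 0], [2, 1, 2, 1, 2, 0], [2, 0, 2, 0,
    0], [], [0, 2, 1, 0, 2, 0, 0], [], [0, 0, 2], [1, 2, 1, 1, 2, 0], [2, 0, 0, 2, 0, 0], [], [1,
    1, 0, 0, 2], [2, 1, 0, 2, 1, 2, 0], [], [], [1, 0, 0, 2, 0, 2], [2, 1, 1, 2, 0, 0], [], [0, 0,
    2, 1, 0, 2, 0], [1, 1, 2, 0, 0], [2, 1, 2, 0], [], [1, 2, 0, 2], [], [2, 1, 0, 2, 0], [1, 1, 0,
    2, 0, 0], [1, 0, 2, 0, 2], [0, 2, 1, 2, 0], [], [], [0, 2, 1, 0, 2, 0], [1, 2, 1, 1, 0, 2], [],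
    [], [], [], [], [], [1, 2, 0], [1, 0, 2, 0], [1, 0, 0, 2, 0], [], [], [2, 1, 2, 0, 2], [2, 1,
    0, 2, 0, 2], [1, 2, 1, 0, 2], [1, 0, 2, 1, 0, 2], [], [2, 0, 2, 1, 2, 0], [], [], [0, 0, 2, 0,
    2], [2, 1, 2, 1, 2, 0, 0], [1, 2, 0, 0], [], [0, 2, 1, 0, 2, 1, 2], [1, 1, 2, 1, 2, 0], [], [2,
    0, 2], [1, 0, 2, 0, 0], [], [1, 1, 2, 1, 0, 2, 0], [0, 2, 0, 2], [1, 1, 0, 2, 1, 2, 0], [], [2,
    1, 1, 0, 2], [], [2, 1, 0, 2, 1, 2], [0, 0, 2, 1, 0, 2], [2, 1, 0, 2], [0, 2, 1, 0, 2], [], [],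
    [2, 0, 2, 1, 2], [], [], [], [], [], [], [2, 0], [0, 2, 0], [0, 0, 2, 0], [2, 1, 2, 0, 2, 0],
    [], [], [], [2, 0, 2, 0, 2, 0], [1, 2, 1, 1, 2, 0, 0], [2, 1, 0, 2, 0, 2, 0], [2, 0, 0], [],
    [1, 2, 1, 2, 0], [], [2, 0, 0, 2], [1, 2, 1, 0, 2, 0], [0, 2, 0, 0], [], [0, 2, 0, 0, 2], [1,
    0, 2, 1, 2, 0], [], [2, 1, 1, 0, 0, 2], [0, 0, 2, 0, 0], [], [1, 1, 2, 0], [1, 1, 0, 2, 0], [1,
    1, 0, 0, 2, 0], [], [1, 2, 1, 2, 0, 2], [], [1, 2, 1, 0, 2, 0, 2], [1, 1, 2, 1, 0, 2], [1, 1,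
    0, 2, 1, 0, 2], [2, 0, 2, 1, 2, 0, 0], [], [], [], [], [], [], [], []]

def gen_six_act (i : Fin 3) (p : Fin 6 × Fin 6 × Fin 6) : Fin 6 × Fin 6 × Fin 6 :=
  (gen_six_step i p.1, gen_six_step i p.2.1, gen_six_step i p.2.2)

theorem gen_six_check : ∀ a b c : Fin 6, a ≠ b → b ≠ c → a ≠ c →
    (gen_six_tab.getD (36 * a.val + 6 * b.val + c.val) []).foldr gen_six_act (0, 1, 2) = (a, b, c) := by
  decide +kernel

def gen_six_gen (i : Fin 3) : Equiv.Perm (Fin 6) :=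
  (![Equiv.swap 0 1 * Equiv.swap 1 2, Equiv.swap 3 5 * Equiv.swap 5 4,
      Equiv.swap 1 4 * Equiv.swap 2 5] : Fin 3 → Equiv.Perm (Fin 6)) i

theorem gen_six_gen_apply : ∀ (i : Fin 3) (x : Fin 6), gen_six_gen i x = gen_six_step i x := by
  decide +kernel

theorem gen_six : alternatingGroup (Fin 6) ≤ Subgroup.closure
    ({Equiv.swap 0 1 * Equiv.swap 1 2, Equiv.swap 3 5 * Equiv.swap 5 4,
      Equiv.swap 1 4 * Equiv.swap 2 5} : Set (Equiv.Perm (Fin 6))) := by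
  set H := Subgroup.closure
    ({Equiv.swap 0 1 * Equiv.swap 1 2, Equiv.swap 3 5 * Equiv.swap 5 4,
      Equiv.swap 1 4 * Equiv.swap 2 5} : Set (Equiv.Perm (Fin 6))) with hH
  have hgen : ∀ i, gen_six_gen i ∈ H := by
    intro i
    apply Subgroup.subset_closure
    fin_cases i
    · exact Or.inl rfl
    · exact Or.inr (Or.inl rfl)
    · exact Or.inr (Or.inr rfl)
  have hact : ∀ w : List (Fin 3), ∀ p : Fin 6 × Fin 6 × Fin 6, w.foldr gen_six_act (0, 1, 2) = p →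
      Equiv.swap p.1 p.2.1 * Equiv.swap p.2.1 p.2.2 ∈ H := by
    intro w
    induction w with
    | nil =>
      rintro p rfl
      exact hgen 0
    | cons i w ih =>
      rintro p rfl
      have h := ih _ rfl
      set q := w.foldr gen_six_act (0, 1, 2) with hq
      show Equiv.swap (gen_six_step i q.1) (gen_six_step i q.2.1) *
        Equiv.swap (gen_six_step i q.2.1) (gen_six_step i q.2.2) ∈ H
      rw [← gen_six_gen_apply, ← gen_six_gen_apply, ← gen_six_gen_apply,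
        Equiv.swap_apply_apply, Equiv.swap_apply_apply]
      have e : gen_six_gen i * Equiv.swap q.1 q.2.1 * (gen_six_gen i)⁻¹ *
          (gen_six_gen i * Equiv.swap q.2.1 q.2.2 * (gen_six_gen i)⁻¹)
          = gen_six_gen i * (Equiv.swap q.1 q.2.1 * Equiv.swap q.2.1 q.2.2) * (gen_six_gen i)⁻¹ := by
        group
      rw [e]
      exact H.mul_mem (H.mul_mem (hgen i) h) (H.inv_mem (hgen i))
  rw [← Equiv.Perm.closure_three_cycles_eq_alternating, Subgroup.closure_le]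
  intro g hg
  have hg3 : g.IsThreeCycle := hg
  obtain ⟨a, ha⟩ : ∃ a, a ∈ g.support := by
    have h3 := hg3.card_support
    exact Finset.card_pos.mp (by omega)
  have h1 := hg3.eq_swap_mul_swap_iff_mem_support.mpr ha
  have h2 := hg3.nodup_iff_mem_support.mpr ha
  simp only [List.nodup_cons, List.mem_cons, List.not_mem_nil, or_false, not_or, not_false_eq_true,
    List.nodup_nil, and_true] at h2
  have h3 := hact _ _ (gen_six_check a (g a) (g (g a)) h2.1.1 h2.2 h2.1.2)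
  rw [h1]
  exact h3

end Pool.Agent.Helper273.Sup
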