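import Pool.Agent.Helper273.Six.Defs

namespace Pool.Agent.Helper273.Sup
open IntermediateField

theorem om_sq {k : Type*} [Field k] [CharZero k] (s : k) (hs : s ^ 4 - s ^ 2 + 4 = 0) :
    om s ^ 2 + om s + 1 = 0 := by
  unfold om
  linear_combination ((s ^ 2 + 3) / 16) * hs

end Pool.Agent.Helper273.Sup
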