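import Pool.Agent.Helper273.Six.Defs
import Pool.Agent.Helper273.Six.P_om_sq



namespace Pool.Agent.Helper273.Sup
open IntermediateField


theorem moves_D {k : Type*} [Field k] [CharZero k] (s : k) (hs : s ^ 4 - s ^ 2 + 4 = 0) :
    Moves s !![1, 0, 0; 0, om s, 0; 0, 0, om s ^ 2] (Equiv.swap 0 1 * Equiv.swap 1 2) := by
  have h := om_sq s hs
  have h3 : om s ^ 3 = 1 := by linear_combination (om s - 1) * h
  have hw : om s ≠ 0 := by
    intro h0
    rw [h0] at h3
    norm_num at h3
  have p0 : (Equiv.swap 0 1 * Equiv.swap 1 2 : Equiv.Perm (Fin 6)) 0 = 1 := by decide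
  have p1 : (Equiv.swap 0 1 * Equiv.swap 1 2 : Equiv.Perm (Fin 6)) 1 = 2 := by decide
  have p2 : (Equiv.swap 0 1 * Equiv.swap 1 2 : Equiv.Perm (Fin 6)) 2 = 0 := by decide
  have p3 : (Equiv.swap 0 1 * Equiv.swap 1 2 : Equiv.Perm (Fin 6)) 3 = 3 := by decide
  have p4 : (Equiv.swap 0 1 * Equiv.swap 1 2 : Equiv.Perm (Fin 6)) 4 = 4 := by decide
  have p5 : (Equiv.swap 0 1 * Equiv.swap 1 2 : Equiv.Perm (Fin 6)) 5 = 5 := by decide
  refine ⟨?_, fun i => ?_⟩
  · rw [Matrix.det_fin_three]
    simp
    exact hw
  · fin_cases i
    · refine ⟨1, one_ne_zero, ?_⟩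
      show _ = (1 : k) • con s ((Equiv.swap 0 1 * Equiv.swap 1 2 : Equiv.Perm (Fin 6)) 0)
      rw [p0]
      simp only [con]
      generalize om s = w at h3
      ext a b
      fin_cases a <;> fin_cases b <;>
        simp [Matrix.mul_apply, Fin.sum_univ_three, Matrix.transpose_apply] <;>
        first
        | ring1
        | linear_combination (-s ^ 2 / 4) * h3
        | linear_combination w * h3
        | linear_combination (-s ^ 2 / 4 * w) * h3
        | linear_combination w ^ 2 * h3
        | linear_combination h3
        | linear_combination (w ^ 3 + 1) * h3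
        | linear_combination (s ^ 2 / 2) * h3
    · refine ⟨1, one_ne_zero, ?_⟩
      show _ = (1 : k) • con s ((Equiv.swap 0 1 * Equiv.swap 1 2 : Equiv.Perm (Fin 6)) 1)
      rw [p1]
      simp only [con]
      generalize om s = w at h3
      ext a b
      fin_cases a <;> fin_cases b <;>
        simp [Matrix.mul_apply, Fin.sum_univ_three, Matrix.transpose_apply] <;>
        first
        | ring1
        | linear_combination (-s ^ 2 / 4) * h3
        | linear_combination w * h3
        | linear_combination (-s ^ 2 / 4 * w) * h3
        | linear_combination w ^ 2 * h3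
        | linear_combination h3
        | linear_combination (w ^ 3 + 1) * h3
        | linear_combination (s ^ 2 / 2) * h3
    · refine ⟨1, one_ne_zero, ?_⟩
      show _ = (1 : k) • con s ((Equiv.swap 0 1 * Equiv.swap 1 2 : Equiv.Perm (Fin 6)) 2)
      rw [p2]
      simp only [con]
      generalize om s = w at h3
      ext a b
      fin_cases a <;> fin_cases b <;>
        simp [Matrix.mul_apply, Fin.sum_univ_three, Matrix.transpose_apply] <;>
        first
        | ring1
        | linear_combination (-s ^ 2 / 4) * h3
        | linear_combination w * h3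
        | linear_combination (-s ^ 2 / 4 * w) * h3
        | linear_combination w ^ 2 * h3
        | linear_combination h3
        | linear_combination (w ^ 3 + 1) * h3
        | linear_combination (s ^ 2 / 2) * h3
    · refine ⟨1, one_ne_zero, ?_⟩
      show _ = (1 : k) • con s ((Equiv.swap 0 1 * Equiv.swap 1 2 : Equiv.Perm (Fin 6)) 3)
      rw [p3]
      simp only [con]
      generalize om s = w at h3
      ext a b
      fin_cases a <;> fin_cases b <;>
        simp [Matrix.mul_apply, Fin.sum_univ_three, Matrix.transpose_apply] <;>
        first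
        | ring1
        | linear_combination (s ^ 2 / 2) * h3
    · refine ⟨om s ^ 2, pow_ne_zero _ hw, ?_⟩
      show _ = om s ^ 2 • con s ((Equiv.swap 0 1 * Equiv.swap 1 2 : Equiv.Perm (Fin 6)) 4)
      rw [p4]
      simp only [con]
      generalize om s = w at h3
      ext a b
      fin_cases a <;> fin_cases b <;>
        simp [Matrix.mul_apply, Fin.sum_univ_three, Matrix.transpose_apply] <;>
        first
        | ring1
        | linear_combination (s ^ 2 / 2) * h3
    · refine ⟨om s, hw, ?_⟩
      show _ = om s • con s ((Equiv.swap 0 1 * Equiv.swap 1 2 : Equiv.Perm (Fin 6)) 5)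
      rw [p5]
      simp only [con]
      generalize om s = w at h3
      ext a b
      fin_cases a <;> fin_cases b <;>
        simp [Matrix.mul_apply, Fin.sum_univ_three, Matrix.transpose_apply] <;>
        first
        | ring1
        | linear_combination w * h3

end Pool.Agent.Helper273.Sup
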