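import Pool.Agent.Helper273.Six.Defs



namespace Pool.Agent.Helper273.Sup
open IntermediateField


/-- the matrix -/
def HH {k : Type*} [Field k] (s : k) : Matrix (Fin 3) (Fin 3) k :=
  !![(3 * s - s ^ 3) / 2, (s ^ 3 - s) / 2, (s ^ 3 - s) / 2;
      -s, (6 - 3 * s + s ^ 3) / 4, (-6 - 3 * s + s ^ 3) / 4;
      -s, (-6 - 3 * s + s ^ 3) / 4, (6 - 3 * s + s ^ 3) / 4]

theorem moves_H_det {k : Type*} [Field k] [CharZero k] (s : k) (hs : s ^ 4 - s ^ 2 + 4 = 0) :
    (HH s).det = -27 := by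
  rw [Matrix.det_fin_three]
  simp only [HH, Matrix.of_apply, Matrix.cons_val', Matrix.cons_val_zero, Matrix.cons_val_one, Matrix.cons_val, Matrix.cons_val_fin_one]
  linear_combination ((27/4) + (-3/4) * s ^ 2) * hs

theorem moves_H_0 {k : Type*} [Field k] [CharZero k] (s : k) (hs : s ^ 4 - s ^ 2 + 4 = 0) :
    HH s * con s 0 * (HH s).transpose = (((9) : k)) • con s 0 := by
  ext a b
  fin_cases a <;> fin_cases b
  · simp [HH, con, om, Matrix.mul_apply, Fin.sum_univ_three]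
    linear_combination ((-9/4) + (1/8) * s ^ 2 + (1/8) * s ^ 4) * hs
  · simp [HH, con, om, Matrix.mul_apply, Fin.sum_univ_three]
    linear_combination ((3/8) * s ^ 2) * hs
  · simp [HH, con, om, Matrix.mul_apply, Fin.sum_univ_three]
    linear_combination ((3/8) * s ^ 2) * hs
  · simp [HH, con, om, Matrix.mul_apply, Fin.sum_univ_three]
    linear_combination ((3/8) * s ^ 2) * hs
  · simp [HH, con, om, Matrix.mul_apply, Fin.sum_univ_three]
    linear_combination ((-9/8) + (17/32) * s ^ 2 + (-1/32) * s ^ 4) * hs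
  · simp [HH, con, om, Matrix.mul_apply, Fin.sum_univ_three]
    linear_combination ((-9/8) + (17/32) * s ^ 2 + (-1/32) * s ^ 4) * hs
  · simp [HH, con, om, Matrix.mul_apply, Fin.sum_univ_three]
    linear_combination ((3/8) * s ^ 2) * hs
  · simp [HH, con, om, Matrix.mul_apply, Fin.sum_univ_three]
    linear_combination ((-9/8) + (17/32) * s ^ 2 + (-1/32) * s ^ 4) * hs
  · simp [HH, con, om, Matrix.mul_apply, Fin.sum_univ_three]
    linear_combination ((-9/8) + (17/32) * s ^ 2 + (-1/32) * s ^ 4) * hs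

theorem moves_H_1 {k : Type*} [Field k] [CharZero k] (s : k) (hs : s ^ 4 - s ^ 2 + 4 = 0) :
    HH s * con s 1 * (HH s).transpose = (((-9) + (9/2) * s ^ 2 : k)) • con s 4 := by
  ext a b
  fin_cases a <;> fin_cases b
  · simp [HH, con, om, Matrix.mul_apply, Fin.sum_univ_three]
    linear_combination ((35/64) * s ^ 2 + (-33/128) * s ^ 4 + (-7/128) * s ^ 6 + (1/128) * s ^ 8 + (1/128) * s ^ 10) * hs
  · simp [HH, con, om, Matrix.mul_apply, Fin.sum_univ_three]
    linear_combination ((-9/64) * s + (-39/128) * s ^ 2 + (51/256) * s ^ 3 + (-21/512) * s ^ 4 + (3/64) * s ^ 5 + (-5/512) * s ^ 6 + (-3/256) * s ^ 7 + (5/512) * s ^ 8 + (1/512) * s ^ 10) * hs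
  · simp [HH, con, om, Matrix.mul_apply, Fin.sum_univ_three]
    linear_combination ((9/64) * s + (81/128) * s ^ 2 + (-51/256) * s ^ 3 + (-117/512) * s ^ 4 + (-3/64) * s ^ 5 + (-5/512) * s ^ 6 + (3/256) * s ^ 7 + (5/512) * s ^ 8 + (1/512) * s ^ 10) * hs
  · simp [HH, con, om, Matrix.mul_apply, Fin.sum_univ_three]
    linear_combination ((-9/64) * s + (-39/128) * s ^ 2 + (51/256) * s ^ 3 + (-21/512) * s ^ 4 + (3/64) * s ^ 5 + (-5/512) * s ^ 6 + (-3/256) * s ^ 7 + (5/512) * s ^ 8 + (1/512) * s ^ 10) * hs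
  · simp [HH, con, om, Matrix.mul_apply, Fin.sum_univ_three]
    linear_combination ((135/64) + (-27/64) * s + (55/256) * s ^ 2 + (-9/64) * s ^ 3 + (-35/256) * s ^ 4 + (-3/256) * s ^ 6 + (3/256) * s ^ 8) * hs
  · simp [HH, con, om, Matrix.mul_apply, Fin.sum_univ_three]
    linear_combination ((9/64) + (-17/256) * s ^ 2 + (-35/256) * s ^ 4 + (-3/256) * s ^ 6 + (3/256) * s ^ 8) * hs
  · simp [HH, con, om, Matrix.mul_apply, Fin.sum_univ_three]
    linear_combination ((9/64) * s + (81/128) * s ^ 2 + (-51/256) * s ^ 3 + (-117/512) * s ^ 4 + (-3/64) * s ^ 5 + (-5/512) * s ^ 6 + (3/256) * s ^ 7 + (5/512) * s ^ 8 + (1/512) * s ^ 10) * hs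
  · simp [HH, con, om, Matrix.mul_apply, Fin.sum_univ_three]
    linear_combination ((9/64) + (-17/256) * s ^ 2 + (-35/256) * s ^ 4 + (-3/256) * s ^ 6 + (3/256) * s ^ 8) * hs
  · simp [HH, con, om, Matrix.mul_apply, Fin.sum_univ_three]
    linear_combination ((-9/64) + (27/64) * s + (55/256) * s ^ 2 + (9/64) * s ^ 3 + (-35/256) * s ^ 4 + (-3/256) * s ^ 6 + (3/256) * s ^ 8) * hs

theorem moves_H_2 {k : Type*} [Field k] [CharZero k] (s : k) (hs : s ^ 4 - s ^ 2 + 4 = 0) :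
    HH s * con s 2 * (HH s).transpose = (((-9) + (9/2) * s ^ 2 : k)) • con s 5 := by
  ext a b
  fin_cases a <;> fin_cases b
  · simp [HH, con, om, Matrix.mul_apply, Fin.sum_univ_three]
    linear_combination ((35/64) * s ^ 2 + (-33/128) * s ^ 4 + (-7/128) * s ^ 6 + (1/128) * s ^ 8 + (1/128) * s ^ 10) * hs
  · simp [HH, con, om, Matrix.mul_apply, Fin.sum_univ_three]
    linear_combination ((9/64) * s + (81/128) * s ^ 2 + (-51/256) * s ^ 3 + (-117/512) * s ^ 4 + (-3/64) * s ^ 5 + (-5/512) * s ^ 6 + (3/256) * s ^ 7 + (5/512) * s ^ 8 + (1/512) * s ^ 10) * hs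
  · simp [HH, con, om, Matrix.mul_apply, Fin.sum_univ_three]
    linear_combination ((-9/64) * s + (-39/128) * s ^ 2 + (51/256) * s ^ 3 + (-21/512) * s ^ 4 + (3/64) * s ^ 5 + (-5/512) * s ^ 6 + (-3/256) * s ^ 7 + (5/512) * s ^ 8 + (1/512) * s ^ 10) * hs
  · simp [HH, con, om, Matrix.mul_apply, Fin.sum_univ_three]
    linear_combination ((9/64) * s + (81/128) * s ^ 2 + (-51/256) * s ^ 3 + (-117/512) * s ^ 4 + (-3/64) * s ^ 5 + (-5/512) * s ^ 6 + (3/256) * s ^ 7 + (5/512) * s ^ 8 + (1/512) * s ^ 10) * hs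
  · simp [HH, con, om, Matrix.mul_apply, Fin.sum_univ_three]
    linear_combination ((-9/64) + (27/64) * s + (55/256) * s ^ 2 + (9/64) * s ^ 3 + (-35/256) * s ^ 4 + (-3/256) * s ^ 6 + (3/256) * s ^ 8) * hs
  · simp [HH, con, om, Matrix.mul_apply, Fin.sum_univ_three]
    linear_combination ((9/64) + (-17/256) * s ^ 2 + (-35/256) * s ^ 4 + (-3/256) * s ^ 6 + (3/256) * s ^ 8) * hs
  · simp [HH, con, om, Matrix.mul_apply, Fin.sum_univ_three]
    linear_combination ((-9/64) * s + (-39/128) * s ^ 2 + (51/256) * s ^ 3 + (-21/512) * s ^ 4 + (3/64) * s ^ 5 + (-5/512) * s ^ 6 + (-3/256) * s ^ 7 + (5/512) * s ^ 8 + (1/512) * s ^ 10) * hs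
  · simp [HH, con, om, Matrix.mul_apply, Fin.sum_univ_three]
    linear_combination ((9/64) + (-17/256) * s ^ 2 + (-35/256) * s ^ 4 + (-3/256) * s ^ 6 + (3/256) * s ^ 8) * hs
  · simp [HH, con, om, Matrix.mul_apply, Fin.sum_univ_three]
    linear_combination ((135/64) + (-27/64) * s + (55/256) * s ^ 2 + (-9/64) * s ^ 3 + (-35/256) * s ^ 4 + (-3/256) * s ^ 6 + (3/256) * s ^ 8) * hs

theorem moves_H_3 {k : Type*} [Field k] [CharZero k] (s : k) (hs : s ^ 4 - s ^ 2 + 4 = 0) :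
    HH s * con s 3 * (HH s).transpose = (((9) : k)) • con s 3 := by
  ext a b
  fin_cases a <;> fin_cases b
  · simp [HH, con, om, Matrix.mul_apply, Fin.sum_univ_three]
    linear_combination ((-9/4) + (1/4) * s ^ 4) * hs
  · simp [HH, con, om, Matrix.mul_apply, Fin.sum_univ_three]
    linear_combination ((-3/8) * s ^ 2 + (1/8) * s ^ 4) * hs
  · simp [HH, con, om, Matrix.mul_apply, Fin.sum_univ_three]
    linear_combination ((-3/8) * s ^ 2 + (1/8) * s ^ 4) * hs
  · simp [HH, con, om, Matrix.mul_apply, Fin.sum_univ_three]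
    linear_combination ((-3/8) * s ^ 2 + (1/8) * s ^ 4) * hs
  · simp [HH, con, om, Matrix.mul_apply, Fin.sum_univ_three]
    linear_combination ((-5/16) * s ^ 2 + (1/16) * s ^ 4) * hs
  · simp [HH, con, om, Matrix.mul_apply, Fin.sum_univ_three]
    linear_combination ((-5/16) * s ^ 2 + (1/16) * s ^ 4) * hs
  · simp [HH, con, om, Matrix.mul_apply, Fin.sum_univ_three]
    linear_combination ((-3/8) * s ^ 2 + (1/8) * s ^ 4) * hs
  · simp [HH, con, om, Matrix.mul_apply, Fin.sum_univ_three]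
    linear_combination ((-5/16) * s ^ 2 + (1/16) * s ^ 4) * hs
  · simp [HH, con, om, Matrix.mul_apply, Fin.sum_univ_three]
    linear_combination ((-5/16) * s ^ 2 + (1/16) * s ^ 4) * hs

theorem moves_H_4 {k : Type*} [Field k] [CharZero k] (s : k) (hs : s ^ 4 - s ^ 2 + 4 = 0) :
    HH s * con s 4 * (HH s).transpose = (((-3) + (-3) * s ^ 2 : k)) • con s 1 := by
  ext a b
  fin_cases a <;> fin_cases b
  · simp [HH, con, om, Matrix.mul_apply, Fin.sum_univ_three]
    linear_combination ((3/4) + (1) * s ^ 2 + (-1/4) * s ^ 4) * hs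
  · simp [HH, con, om, Matrix.mul_apply, Fin.sum_univ_three]
    linear_combination ((-3/16) * s + (3/16) * s ^ 2 + (-3/16) * s ^ 3 + (-1/16) * s ^ 4) * hs
  · simp [HH, con, om, Matrix.mul_apply, Fin.sum_univ_three]
    linear_combination ((3/16) * s + (3/64) * s ^ 2 + (3/16) * s ^ 3 + (-1/4) * s ^ 4 + (-3/64) * s ^ 6) * hs
  · simp [HH, con, om, Matrix.mul_apply, Fin.sum_univ_three]
    linear_combination ((-3/16) * s + (3/16) * s ^ 2 + (-3/16) * s ^ 3 + (-1/16) * s ^ 4) * hs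
  · simp [HH, con, om, Matrix.mul_apply, Fin.sum_univ_three]
    linear_combination ((3/4) + (-3/4) * s + (9/16) * s ^ 2 + (3/16) * s ^ 4) * hs
  · simp [HH, con, om, Matrix.mul_apply, Fin.sum_univ_three]
    linear_combination ((-9/16) + (-3/16) * s ^ 2) * hs
  · simp [HH, con, om, Matrix.mul_apply, Fin.sum_univ_three]
    linear_combination ((3/16) * s + (3/64) * s ^ 2 + (3/16) * s ^ 3 + (-1/4) * s ^ 4 + (-3/64) * s ^ 6) * hs
  · simp [HH, con, om, Matrix.mul_apply, Fin.sum_univ_three]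
    linear_combination ((-9/16) + (-3/16) * s ^ 2) * hs
  · simp [HH, con, om, Matrix.mul_apply, Fin.sum_univ_three]
    linear_combination ((3/16) + (3/4) * s + (-3/16) * s ^ 2) * hs

theorem moves_H_5 {k : Type*} [Field k] [CharZero k] (s : k) (hs : s ^ 4 - s ^ 2 + 4 = 0) :
    HH s * con s 5 * (HH s).transpose = (((-3) + (-3) * s ^ 2 : k)) • con s 2 := by
  ext a b
  fin_cases a <;> fin_cases b
  · simp [HH, con, om, Matrix.mul_apply, Fin.sum_univ_three]
    linear_combination ((3/4) + (1) * s ^ 2 + (-1/4) * s ^ 4) * hs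
  · simp [HH, con, om, Matrix.mul_apply, Fin.sum_univ_three]
    linear_combination ((3/16) * s + (3/64) * s ^ 2 + (3/16) * s ^ 3 + (-1/4) * s ^ 4 + (-3/64) * s ^ 6) * hs
  · simp [HH, con, om, Matrix.mul_apply, Fin.sum_univ_three]
    linear_combination ((-3/16) * s + (3/16) * s ^ 2 + (-3/16) * s ^ 3 + (-1/16) * s ^ 4) * hs
  · simp [HH, con, om, Matrix.mul_apply, Fin.sum_univ_three]
    linear_combination ((3/16) * s + (3/64) * s ^ 2 + (3/16) * s ^ 3 + (-1/4) * s ^ 4 + (-3/64) * s ^ 6) * hs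
  · simp [HH, con, om, Matrix.mul_apply, Fin.sum_univ_three]
    linear_combination ((3/16) + (3/4) * s + (-3/16) * s ^ 2) * hs
  · simp [HH, con, om, Matrix.mul_apply, Fin.sum_univ_three]
    linear_combination ((-9/16) + (-3/16) * s ^ 2) * hs
  · simp [HH, con, om, Matrix.mul_apply, Fin.sum_univ_three]
    linear_combination ((-3/16) * s + (3/16) * s ^ 2 + (-3/16) * s ^ 3 + (-1/16) * s ^ 4) * hs
  · simp [HH, con, om, Matrix.mul_apply, Fin.sum_univ_three]
    linear_combination ((-9/16) + (-3/16) * s ^ 2) * hs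
  · simp [HH, con, om, Matrix.mul_apply, Fin.sum_univ_three]
    linear_combination ((3/4) + (-3/4) * s + (9/16) * s ^ 2 + (3/16) * s ^ 4) * hs

theorem moves_H {k : Type*} [Field k] [CharZero k] (s : k) (hs : s ^ 4 - s ^ 2 + 4 = 0) :
    Moves s !![(3 * s - s ^ 3) / 2, (s ^ 3 - s) / 2, (s ^ 3 - s) / 2;
      -s, (6 - 3 * s + s ^ 3) / 4, (-6 - 3 * s + s ^ 3) / 4;
      -s, (-6 - 3 * s + s ^ 3) / 4, (6 - 3 * s + s ^ 3) / 4]
      (Equiv.swap 1 4 * Equiv.swap 2 5) := by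
  have h6 : (6 : k) ≠ 0 := by norm_num
  have hc1 : (-9 + 9 / 2 * s ^ 2 : k) ≠ 0 := by
    intro h
    apply h6
    linear_combination hs - (2 / 9 * s ^ 2 + 2 / 9) * h
  have hc2 : (-3 + -3 * s ^ 2 : k) ≠ 0 := by
    intro h
    apply h6
    linear_combination hs + (1 / 3 * s ^ 2 - 2 / 3) * h
  constructor
  · have h := moves_H_det s hs
    unfold HH at h
    rw [h]
    norm_num
  · intro i
    have p0 : (Equiv.swap 1 4 * Equiv.swap 2 5 : Equiv.Perm (Fin 6)) 0 = 0 := by decide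
    have p1 : (Equiv.swap 1 4 * Equiv.swap 2 5 : Equiv.Perm (Fin 6)) 1 = 4 := by decide
    have p2 : (Equiv.swap 1 4 * Equiv.swap 2 5 : Equiv.Perm (Fin 6)) 2 = 5 := by decide
    have p3 : (Equiv.swap 1 4 * Equiv.swap 2 5 : Equiv.Perm (Fin 6)) 3 = 3 := by decide
    have p4 : (Equiv.swap 1 4 * Equiv.swap 2 5 : Equiv.Perm (Fin 6)) 4 = 1 := by decide
    have p5 : (Equiv.swap 1 4 * Equiv.swap 2 5 : Equiv.Perm (Fin 6)) 5 = 2 := by decide
    have key : ∀ i : Fin 6, i = 0 ∨ i = 1 ∨ i = 2 ∨ i = 3 ∨ i = 4 ∨ i = 5 := by decide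
    rcases key i with rfl | rfl | rfl | rfl | rfl | rfl
    · exact ⟨9, by norm_num, by rw [p0]; have := moves_H_0 s hs; unfold HH at this; rw [this]⟩
    · exact ⟨_, hc1, by rw [p1]; have := moves_H_1 s hs; unfold HH at this; rw [this]⟩
    · exact ⟨_, hc1, by rw [p2]; have := moves_H_2 s hs; unfold HH at this; rw [this]⟩
    · exact ⟨9, by norm_num, by rw [p3]; have := moves_H_3 s hs; unfold HH at this; rw [this]⟩
    · exact ⟨_, hc2, by rw [p4]; have := moves_H_4 s hs; unfold HH at this; rw [this]⟩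
    · exact ⟨_, hc2, by rw [p5]; have := moves_H_5 s hs; unfold HH at this; rw [this]⟩

end Pool.Agent.Helper273.Sup
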