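import Pool.Agent.Helper273.Six.Defs
import Pool.Agent.Helper273.Six.P_om_sq



namespace Pool.Agent.Helper273.Sup
open IntermediateField


theorem moves_P {k : Type*} [Field k] [CharZero k] (s : k) (hs : s ^ 4 - s ^ 2 + 4 = 0) :
    Moves s !![0, 1, 0; 0, 0, 1; 1, 0, 0] (Equiv.swap 3 5 * Equiv.swap 5 4) := by
  have h := om_sq s hs
  have hP : ∀ Q : Matrix (Fin 3) (Fin 3) k,
      (!![0, 1, 0; 0, 0, 1; 1, 0, 0] : Matrix (Fin 3) (Fin 3) k) * Q *
        (!![0, 1, 0; 0, 0, 1; 1, 0, 0] : Matrix (Fin 3) (Fin 3) k).transpose =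
      !![Q 1 1, Q 1 2, Q 1 0; Q 2 1, Q 2 2, Q 2 0; Q 0 1, Q 0 2, Q 0 0] := by
    intro Q
    ext a b
    fin_cases a <;> fin_cases b <;> simp [Matrix.mul_apply, Matrix.vecMul, dotProduct, Fin.sum_univ_three]
  have hw : om s ≠ 0 := by
    intro h0
    rw [h0] at h
    norm_num at h
  have hw3 : om s ^ 3 = 1 := by linear_combination (om s - 1) * h
  refine ⟨by simp [Matrix.det_fin_three], fun i => ?_⟩
  simp only [hP]
  fin_cases i
  · refine ⟨1, one_ne_zero, ?_⟩
    have e : (Equiv.swap 3 5 * Equiv.swap 5 4 : Equiv.Perm (Fin 6)) (0 : Fin 6) = 0 := by decide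
    simp only [Fin.zero_eta, e, one_smul]
    unfold con
    generalize om s = w at *
    ext a b
    fin_cases a <;> fin_cases b <;> simp
  · refine ⟨om s ^ 2, pow_ne_zero _ hw, ?_⟩
    have e : (Equiv.swap 3 5 * Equiv.swap 5 4 : Equiv.Perm (Fin 6)) (1 : Fin 6) = 1 := by decide
    simp only [Fin.mk_one, e]
    unfold con
    generalize om s = w at *
    ext a b
    fin_cases a <;> fin_cases b <;> simp
    · linear_combination (s ^ 2 / 4) * hw3
    · linear_combination (s ^ 2 / 4) * w * hw3
    · linear_combination (s ^ 2 / 4) * hw3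
    · linear_combination (-w) * hw3
    · ring
    · linear_combination (s ^ 2 / 4) * w * hw3
    · ring
    · linear_combination - hw3
  · refine ⟨om s, hw, ?_⟩
    have e : (Equiv.swap 3 5 * Equiv.swap 5 4 : Equiv.Perm (Fin 6)) (2 : Fin 6) = 2 := by decide
    simp only [Fin.reduceFinMk, e]
    unfold con
    generalize om s = w at *
    ext a b
    fin_cases a <;> fin_cases b <;> simp
    · linear_combination (s ^ 2 / 4) * hw3
    · ring
    · linear_combination (s ^ 2 / 4) * hw3
    · ring
    · ring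
    · ring
    · ring
    · linear_combination - hw3
  · refine ⟨1, one_ne_zero, ?_⟩
    have e : (Equiv.swap 3 5 * Equiv.swap 5 4 : Equiv.Perm (Fin 6)) (3 : Fin 6) = 5 := by decide
    simp only [Fin.reduceFinMk, e, one_smul]
    unfold con
    generalize om s = w at *
    ext a b
    fin_cases a <;> fin_cases b <;> simp
  · refine ⟨1, one_ne_zero, ?_⟩
    have e : (Equiv.swap 3 5 * Equiv.swap 5 4 : Equiv.Perm (Fin 6)) (4 : Fin 6) = 3 := by decide
    simp only [Fin.reduceFinMk, e, one_smul]
    unfold con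
    generalize om s = w at *
    ext a b
    fin_cases a <;> fin_cases b <;> simp
  · refine ⟨1, one_ne_zero, ?_⟩
    have e : (Equiv.swap 3 5 * Equiv.swap 5 4 : Equiv.Perm (Fin 6)) (5 : Fin 6) = 4 := by decide
    simp only [Fin.reduceFinMk, e, one_smul]
    unfold con
    generalize om s = w at *
    ext a b
    fin_cases a <;> fin_cases b <;> simp

end Pool.Agent.Helper273.Sup
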