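import Pool.Agent.Helper273.Six.Defs



namespace Pool.Agent.Helper273.Sup
open IntermediateField


theorem moves_inv {k : Type*} [Field k] (s : k) (A : Matrix (Fin 3) (Fin 3) k)
    (π : Equiv.Perm (Fin 6)) (hA : Moves s A π) : Moves s A⁻¹ π⁻¹ := by
  have hu : IsUnit A.det := isUnit_iff_ne_zero.mpr hA.1
  have h1 : A⁻¹ * A = 1 := Matrix.nonsing_inv_mul A hu
  have h1t : A.transpose * A⁻¹.transpose = 1 := by
    rw [← Matrix.transpose_mul, h1, Matrix.transpose_one]
  refine ⟨?_, fun i => ?_⟩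
  · have := Matrix.isUnit_nonsing_inv_det A hu
    exact this.ne_zero
  · obtain ⟨c, hc, h⟩ := hA.2 (π⁻¹ i)
    refine ⟨c⁻¹, inv_ne_zero hc, ?_⟩
    have hi : π (π⁻¹ i) = i := by simp
    rw [hi] at h
    have h2 : con s i = c⁻¹ • (A * con s (π⁻¹ i) * A.transpose) := by
      rw [h, smul_smul, inv_mul_cancel₀ hc, one_smul]
    rw [h2, Matrix.mul_smul, Matrix.smul_mul]
    congr 1
    calc A⁻¹ * (A * con s (π⁻¹ i) * A.transpose) * A⁻¹.transpose
        = (A⁻¹ * A) * con s (π⁻¹ i) * (A.transpose * A⁻¹.transpose) := by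
          simp only [Matrix.mul_assoc]
      _ = con s (π⁻¹ i) := by rw [h1, h1t, Matrix.one_mul, Matrix.mul_one]

end Pool.Agent.Helper273.Sup
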