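import Pool.Agent.Helper273.Six.Defs



namespace Pool.Agent.Helper273.Sup
open IntermediateField


theorem moves_mul {k : Type*} [Field k] (s : k) (A B : Matrix (Fin 3) (Fin 3) k)
    (π ρ : Equiv.Perm (Fin 6)) (hA : Moves s A π) (hB : Moves s B ρ) :
    Moves s (A * B) (π * ρ) := by
  obtain ⟨hA1, hA2⟩ := hA
  obtain ⟨hB1, hB2⟩ := hB
  refine ⟨by rw [Matrix.det_mul]; exact mul_ne_zero hA1 hB1, fun i => ?_⟩
  obtain ⟨c, hc, h1⟩ := hB2 i
  obtain ⟨c', hc', h2⟩ := hA2 (ρ i)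
  refine ⟨c * c', mul_ne_zero hc hc', ?_⟩
  have e1 : A * B * con s i * (A * B).transpose =
      A * (B * con s i * B.transpose) * A.transpose := by
    rw [Matrix.transpose_mul]
    simp only [Matrix.mul_assoc]
  rw [e1, h1, Matrix.mul_smul, Matrix.smul_mul, h2, smul_smul]
  rfl

end Pool.Agent.Helper273.Sup
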