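import Pool.Agent.Helper273.Six.Defs
import Pool.Agent.Helper273.Six.P_om_sq



namespace Pool.Agent.Helper273.Sup
open IntermediateField


theorem con_span {k : Type*} [Field k] [CharZero k] (s : k) (hs : s ^ 4 - s ^ 2 + 4 = 0)
    (A : Matrix (Fin 3) (Fin 3) k) (c : k)
    (h : ∀ i, A * con s i * A.transpose = c • con s i) (X : Matrix (Fin 3) (Fin 3) k)
    (hX : X.transpose = X) : A * X * A.transpose = c • X := by
  have hw := om_sq s hs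
  have hs0 : s ≠ 0 := by
    rintro rfl
    norm_num at hs
  have hs2 : s ^ 2 ≠ 0 := pow_ne_zero 2 hs0
  have h10 : X 1 0 = X 0 1 := congrFun (congrFun hX 0) 1
  have h20 : X 2 0 = X 0 2 := congrFun (congrFun hX 0) 2
  have h21 : X 2 1 = X 1 2 := congrFun (congrFun hX 1) 2
  obtain ⟨p, hp⟩ : ∃ p : k, X 1 2 = s ^ 2 / 4 * p := ⟨4 * X 1 2 / s ^ 2, by field_simp⟩
  obtain ⟨q, hq⟩ : ∃ q : k, X 0 2 = s ^ 2 / 4 * q := ⟨4 * X 0 2 / s ^ 2, by field_simp⟩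
  obtain ⟨r, hr⟩ : ∃ r : k, X 0 1 = s ^ 2 / 4 * r := ⟨4 * X 0 1 / s ^ 2, by field_simp⟩
  obtain ⟨m0, hm0⟩ : ∃ m : k, m = (2 * X 0 0 - p) / 9 := ⟨_, rfl⟩
  obtain ⟨m1, hm1⟩ : ∃ m : k, m = (2 * X 1 1 - q) / 9 := ⟨_, rfl⟩
  obtain ⟨m2, hm2⟩ : ∃ m : k, m = (2 * X 2 2 - r) / 9 := ⟨_, rfl⟩
  obtain ⟨n0, hn0⟩ : ∃ m : k, m = (X 0 0 + p) / 3 := ⟨_, rfl⟩
  obtain ⟨n1, hn1⟩ : ∃ m : k, m = (X 1 1 + q) / 3 := ⟨_, rfl⟩
  obtain ⟨n2, hn2⟩ : ∃ m : k, m = (X 2 2 + r) / 3 := ⟨_, rfl⟩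
  have key : X = (m0 + m1 + m2) • con s 0 + (m0 + om s * m1 + om s ^ 2 * m2) • con s 1 +
      (m0 + om s ^ 2 * m1 + om s * m2) • con s 2 + n0 • con s 3 + n1 • con s 4 +
      n2 • con s 5 := by
    ext i j
    fin_cases i <;> fin_cases j
    · change X 0 0 = (m0 + m1 + m2) * 1 + (m0 + om s * m1 + om s ^ 2 * m2) * 1 +
        (m0 + om s ^ 2 * m1 + om s * m2) * 1 + n0 * 1 + n1 * 0 + n2 * 0
      have h5 : X 0 0 = 3 * m0 + n0 := by rw [hm0, hn0]; ring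
      linear_combination h5 - (m1 + m2) * hw
    · change X 0 1 = (m0 + m1 + m2) * (-s ^ 2 / 4) +
        (m0 + om s * m1 + om s ^ 2 * m2) * (-s ^ 2 / 4 * om s) +
        (m0 + om s ^ 2 * m1 + om s * m2) * (-s ^ 2 / 4 * om s ^ 2) + n0 * 0 + n1 * 0 +
        n2 * (s ^ 2 / 2)
      have h5 : X 0 1 = s ^ 2 / 4 * (-3 * m2 + 2 * n2) := by rw [hr, hm2, hn2]; ring
      linear_combination h5 + s ^ 2 / 4 * (m0 + m1 * (om s ^ 2 - om s + 1) +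
        2 * m2 * (om s - 1)) * hw
    · change X 0 2 = (m0 + m1 + m2) * (-s ^ 2 / 4) +
        (m0 + om s * m1 + om s ^ 2 * m2) * (-s ^ 2 / 4 * om s ^ 2) +
        (m0 + om s ^ 2 * m1 + om s * m2) * (-s ^ 2 / 4 * om s) + n0 * 0 +
        n1 * (s ^ 2 / 2) + n2 * 0
      have h5 : X 0 2 = s ^ 2 / 4 * (-3 * m1 + 2 * n1) := by rw [hq, hm1, hn1]; ring
      linear_combination h5 + s ^ 2 / 4 * (m0 + 2 * m1 * (om s - 1) +
        m2 * (om s ^ 2 - om s + 1)) * hw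
    · change X 1 0 = (m0 + m1 + m2) * (-s ^ 2 / 4) +
        (m0 + om s * m1 + om s ^ 2 * m2) * (-s ^ 2 / 4 * om s) +
        (m0 + om s ^ 2 * m1 + om s * m2) * (-s ^ 2 / 4 * om s ^ 2) + n0 * 0 + n1 * 0 +
        n2 * (s ^ 2 / 2)
      rw [h10]
      have h5 : X 0 1 = s ^ 2 / 4 * (-3 * m2 + 2 * n2) := by rw [hr, hm2, hn2]; ring
      linear_combination h5 + s ^ 2 / 4 * (m0 + m1 * (om s ^ 2 - om s + 1) +
        2 * m2 * (om s - 1)) * hw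
    · change X 1 1 = (m0 + m1 + m2) * 1 + (m0 + om s * m1 + om s ^ 2 * m2) * om s ^ 2 +
        (m0 + om s ^ 2 * m1 + om s * m2) * om s + n0 * 0 + n1 * 1 + n2 * 0
      have h5 : X 1 1 = 3 * m1 + n1 := by rw [hm1, hn1]; ring
      linear_combination h5 - (m0 + 2 * m1 * (om s - 1) + m2 * (om s ^ 2 - om s + 1)) * hw
    · change X 1 2 = (m0 + m1 + m2) * (-s ^ 2 / 4) +
        (m0 + om s * m1 + om s ^ 2 * m2) * (-s ^ 2 / 4) +
        (m0 + om s ^ 2 * m1 + om s * m2) * (-s ^ 2 / 4) + n0 * (s ^ 2 / 2) + n1 * 0 + n2 * 0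
      have h5 : X 1 2 = s ^ 2 / 4 * (-3 * m0 + 2 * n0) := by rw [hp, hm0, hn0]; ring
      linear_combination h5 + s ^ 2 / 4 * (m1 + m2) * hw
    · change X 2 0 = (m0 + m1 + m2) * (-s ^ 2 / 4) +
        (m0 + om s * m1 + om s ^ 2 * m2) * (-s ^ 2 / 4 * om s ^ 2) +
        (m0 + om s ^ 2 * m1 + om s * m2) * (-s ^ 2 / 4 * om s) + n0 * 0 +
        n1 * (s ^ 2 / 2) + n2 * 0
      rw [h20]
      have h5 : X 0 2 = s ^ 2 / 4 * (-3 * m1 + 2 * n1) := by rw [hq, hm1, hn1]; ring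
      linear_combination h5 + s ^ 2 / 4 * (m0 + 2 * m1 * (om s - 1) +
        m2 * (om s ^ 2 - om s + 1)) * hw
    · change X 2 1 = (m0 + m1 + m2) * (-s ^ 2 / 4) +
        (m0 + om s * m1 + om s ^ 2 * m2) * (-s ^ 2 / 4) +
        (m0 + om s ^ 2 * m1 + om s * m2) * (-s ^ 2 / 4) + n0 * (s ^ 2 / 2) + n1 * 0 + n2 * 0
      rw [h21]
      have h5 : X 1 2 = s ^ 2 / 4 * (-3 * m0 + 2 * n0) := by rw [hp, hm0, hn0]; ring
      linear_combination h5 + s ^ 2 / 4 * (m1 + m2) * hw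
    · change X 2 2 = (m0 + m1 + m2) * 1 + (m0 + om s * m1 + om s ^ 2 * m2) * om s +
        (m0 + om s ^ 2 * m1 + om s * m2) * om s ^ 2 + n0 * 0 + n1 * 0 + n2 * 1
      have h5 : X 2 2 = 3 * m2 + n2 := by rw [hm2, hn2]; ring
      linear_combination h5 - (m0 + m1 * (om s ^ 2 - om s + 1) + 2 * m2 * (om s - 1)) * hw
  have hlin : ∀ (t : k) (i : Fin 6), A * (t • con s i) * A.transpose = c • (t • con s i) := by
    intro t i
    rw [Matrix.mul_smul, Matrix.smul_mul, h i, smul_comm]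
  rw [key]
  simp only [Matrix.mul_add, Matrix.add_mul, hlin, smul_add]

end Pool.Agent.Helper273.Sup
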