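import Pool.Agent.Helper273.Six.Defs
import Pool.Agent.Helper273.Six.P_om_sq



namespace Pool.Agent.Helper273.Sup
open IntermediateField


/-- polarised determinant -/
def d3 {k : Type*} [Field k] (X Y Z : Matrix (Fin 3) (Fin 3) k) : k :=
  (X + Y + Z).det - (X + Y).det - (Y + Z).det - (X + Z).det + X.det + Y.det + Z.det

theorem d3_smul {k : Type*} [Field k] (X Y Z : Matrix (Fin 3) (Fin 3) k) (a b c : k) :
    d3 (a • X) (b • Y) (c • Z) = a * b * c * d3 X Y Z := by
  unfold d3
  simp only [Matrix.det_fin_three, Matrix.add_apply, Matrix.smul_apply, smul_eq_mul]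
  ring

theorem d3_conj {k : Type*} [Field k] (A X Y Z : Matrix (Fin 3) (Fin 3) k) :
    d3 (A * X * A.transpose) (A * Y * A.transpose) (A * Z * A.transpose) =
      A.det ^ 2 * d3 X Y Z := by
  unfold d3
  have e1 : A * X * A.transpose + A * Y * A.transpose + A * Z * A.transpose =
      A * (X + Y + Z) * A.transpose := by
    rw [Matrix.mul_add, Matrix.mul_add, Matrix.add_mul, Matrix.add_mul]
  have e2 : ∀ P R : Matrix (Fin 3) (Fin 3) k, A * P * A.transpose + A * R * A.transpose =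
      A * (P + R) * A.transpose := by
    intro P R
    rw [Matrix.mul_add, Matrix.add_mul]
  rw [e1, e2, e2, e2]
  simp only [Matrix.det_mul, Matrix.det_transpose]
  ring

theorem d3_val034 {k : Type*} [Field k] [CharZero k] (s : k) (hs : s ^ 4 - s ^ 2 + 4 = 0) :
    d3 (con s 0) (con s 3) (con s 4) = 3 / 2 + 3 / 8 * s ^ 2 := by
  simp [d3, con, Matrix.det_fin_three]
  linear_combination (-(1 / 8) - (1 / 8) * s ^ 2) * hs

theorem d3_val035 {k : Type*} [Field k] [CharZero k] (s : k) (hs : s ^ 4 - s ^ 2 + 4 = 0) :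
    d3 (con s 0) (con s 3) (con s 5) = 3 / 2 + 3 / 8 * s ^ 2 := by
  simp [d3, con, Matrix.det_fin_three]
  linear_combination (-(1 / 8) - (1 / 8) * s ^ 2) * hs

theorem d3_val045 {k : Type*} [Field k] [CharZero k] (s : k) (hs : s ^ 4 - s ^ 2 + 4 = 0) :
    d3 (con s 0) (con s 4) (con s 5) = 3 / 2 + 3 / 8 * s ^ 2 := by
  simp [d3, con, Matrix.det_fin_three]
  linear_combination (-(1 / 8) - (1 / 8) * s ^ 2) * hs

theorem d3_val345 {k : Type*} [Field k] [CharZero k] (s : k) (hs : s ^ 4 - s ^ 2 + 4 = 0) :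
    d3 (con s 3) (con s 4) (con s 5) = -(3 / 4) * s ^ 2 := by
  simp [d3, con, Matrix.det_fin_three]
  linear_combination ((1 / 4) + (1 / 4) * s ^ 2) * hs

theorem d3_val145 {k : Type*} [Field k] [CharZero k] (s : k) (hs : s ^ 4 - s ^ 2 + 4 = 0) :
    d3 (con s 1) (con s 4) (con s 5) = 3 / 2 + 3 / 8 * s ^ 2 := by
  simp [d3, con, Matrix.det_fin_three]
  linear_combination (-(1 / 8) - (1 / 8) * s ^ 2) * hs

theorem d3_val245 {k : Type*} [Field k] [CharZero k] (s : k) (hs : s ^ 4 - s ^ 2 + 4 = 0) :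
    d3 (con s 2) (con s 4) (con s 5) = 3 / 2 + 3 / 8 * s ^ 2 := by
  simp [d3, con, Matrix.det_fin_three]
  linear_combination (-(1 / 8) - (1 / 8) * s ^ 2) * hs

theorem moves_scalars {k : Type*} [Field k] [CharZero k] (s : k) (hs : s ^ 4 - s ^ 2 + 4 = 0)
    (A : Matrix (Fin 3) (Fin 3) k) (hA : A.det ≠ 0) (c : Fin 6 → k)
    (h : ∀ i, A * con s i * A.transpose = c i • con s i) : ∀ i, c i = c 0 := by
  have hs0 : s ≠ 0 := by
    rintro rfl
    norm_num at hs
  have hv : (3 / 2 + 3 / 8 * s ^ 2 : k) ≠ 0 := by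
    intro h0
    have h1 : s ^ 2 = -4 := by linear_combination (8 / 3) * h0
    have h2 : s ^ 4 = 16 := by
      have : s ^ 4 = s ^ 2 * s ^ 2 := by ring
      rw [this, h1]; norm_num
    rw [h1, h2] at hs
    norm_num at hs
  have hv2 : (-(3 / 4) * s ^ 2 : k) ≠ 0 := by
    apply mul_ne_zero _ (pow_ne_zero 2 hs0)
    norm_num
  have key : ∀ i j l : Fin 6, d3 (con s i) (con s j) (con s l) ≠ 0 →
      c i * c j * c l = A.det ^ 2 := by
    intro i j l hne
    have h1 := d3_conj A (con s i) (con s j) (con s l)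
    rw [h i, h j, h l, d3_smul] at h1
    exact mul_right_cancel₀ hne h1
  have k034 := key 0 3 4 (by rw [d3_val034 s hs]; exact hv)
  have k035 := key 0 3 5 (by rw [d3_val035 s hs]; exact hv)
  have k045 := key 0 4 5 (by rw [d3_val045 s hs]; exact hv)
  have k345 := key 3 4 5 (by rw [d3_val345 s hs]; exact hv2)
  have k145 := key 1 4 5 (by rw [d3_val145 s hs]; exact hv)
  have k245 := key 2 4 5 (by rw [d3_val245 s hs]; exact hv)
  have hD : A.det ^ 2 ≠ 0 := pow_ne_zero 2 hA
  have n0 : c 0 ≠ 0 := by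
    intro h0; rw [h0] at k034; apply hD; rw [← k034]; ring
  have n3 : c 3 ≠ 0 := by
    intro h0; rw [h0] at k034; apply hD; rw [← k034]; ring
  have n4 : c 4 ≠ 0 := by
    intro h0; rw [h0] at k034; apply hD; rw [← k034]; ring
  have n5 : c 5 ≠ 0 := by
    intro h0; rw [h0] at k035; apply hD; rw [← k035]; ring
  have e45 : c 4 = c 5 := mul_left_cancel₀ (mul_ne_zero n0 n3) (k034.trans k035.symm)
  have e03 : c 0 = c 3 := by
    apply mul_right_cancel₀ (mul_ne_zero n4 n5)
    rw [← mul_assoc, ← mul_assoc, k045, k345]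
  have e10 : c 1 = c 0 := by
    apply mul_right_cancel₀ (mul_ne_zero n4 n5)
    rw [← mul_assoc, ← mul_assoc, k045, k145]
  have e20 : c 2 = c 0 := by
    apply mul_right_cancel₀ (mul_ne_zero n4 n5)
    rw [← mul_assoc, ← mul_assoc, k045, k245]
  have e34 : c 3 = c 4 := by
    apply mul_right_cancel₀ (mul_ne_zero n0 n5)
    linear_combination k035 - k045
  intro i
  fin_cases i
  · rfl
  · exact e10
  · exact e20
  · exact e03.symm
  · exact (e03.trans e34).symm
  · exact (e03.trans (e34.trans e45)).symm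

end Pool.Agent.Helper273.Sup
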