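import Pool.Agent.Helper273.Six.Defs
import Pool.Agent.Helper273.Six.P_moves_scalars
import Pool.Agent.Helper273.Six.P_con_span



namespace Pool.Agent.Helper273.Sup
open IntermediateField


theorem moves_one {k : Type*} [Field k] [CharZero k] (s : k) (hs : s ^ 4 - s ^ 2 + 4 = 0)
    (A : Matrix (Fin 3) (Fin 3) k) (h : Moves s A 1) : ∃ c : k, c ≠ 0 ∧ A = c • 1 := by
  obtain ⟨hA, h2⟩ := h
  choose c hc0 hc using h2
  have hc' : ∀ i, A * con s i * A.transpose = c i • con s i := by
    intro i
    have := hc i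
    simpa using this
  have hall := moves_scalars s hs A hA c hc'
  have hsp := con_span s hs A (c 0) (fun i => by rw [hc' i, hall i])
  have h00 := hsp !![1,0,0;0,0,0;0,0,0] (by ext i j; fin_cases i <;> fin_cases j <;> rfl)
  have h11 := hsp !![0,0,0;0,1,0;0,0,0] (by ext i j; fin_cases i <;> fin_cases j <;> rfl)
  have h22 := hsp !![0,0,0;0,0,0;0,0,1] (by ext i j; fin_cases i <;> fin_cases j <;> rfl)
  have h01 := hsp !![0,1,0;1,0,0;0,0,0] (by ext i j; fin_cases i <;> fin_cases j <;> rfl)
  have h02 := hsp !![0,0,1;0,0,0;1,0,0] (by ext i j; fin_cases i <;> fin_cases j <;> rfl)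
  have e00 := congrFun (congrFun h00 0) 0
  have e10 := congrFun (congrFun h00 1) 1
  have e20 := congrFun (congrFun h00 2) 2
  have e01 := congrFun (congrFun h11 0) 0
  have e21 := congrFun (congrFun h11 2) 2
  have e02 := congrFun (congrFun h22 0) 0
  have e12 := congrFun (congrFun h22 1) 1
  have f01 := congrFun (congrFun h01 0) 1
  have f02 := congrFun (congrFun h02 0) 2
  simp [Matrix.mul_apply, Fin.sum_univ_three, Matrix.transpose_apply] at e00 e10 e20 e01 e21 e02 e12 f01 f02
  have hc00 := hc0 0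
  have hA00 : A 0 0 ≠ 0 := by
    intro h
    rw [h] at e00
    apply hc00
    rw [← e00]; ring
  rw [e01] at f01
  rw [e02] at f02
  have g1 : A 1 1 = A 0 0 := by
    apply mul_left_cancel₀ hA00
    rw [e00]
    linear_combination f01
  have g2 : A 2 2 = A 0 0 := by
    apply mul_left_cancel₀ hA00
    rw [e00]
    linear_combination f02
  refine ⟨A 0 0, hA00, ?_⟩
  ext i j
  fin_cases i <;> fin_cases j <;> simp [e10, e20, e01, e21, e02, e12, g1, g2]

end Pool.Agent.Helper273.Sup
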