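import Pool.Agent.Helper273.Six.Defs
import Pool.Agent.Helper273.Six.P_om_sq
import Pool.Agent.Helper273.Six.P_moves_D
import Pool.Agent.Helper273.Six.P_moves_P
import Pool.Agent.Helper273.Six.P_moves_H
import Pool.Agent.Helper273.Six.P_moves_mul
import Pool.Agent.Helper273.Six.P_moves_inv
import Pool.Agent.Helper273.Six.P_moves_one
import Pool.Agent.Helper273.Six.P_gen_six



namespace Pool.Agent.Helper273.Sup
open IntermediateField


theorem val_uniq {k : Type*} [Field k] [CharZero k] (s : k) (hs : s ^ 4 - s ^ 2 + 4 = 0)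
    (A B : Matrix (Fin 3) (Fin 3) k) (π : Equiv.Perm (Fin 6)) (hA : Moves s A π)
    (hB : Moves s B π) : ∃ c : k, c ≠ 0 ∧ B = c • A := by
  have h1 : Moves s (A⁻¹ * B) (π⁻¹ * π) := moves_mul s _ _ _ _ (moves_inv s A π hA) hB
  rw [inv_mul_cancel] at h1
  obtain ⟨c, hc, h2⟩ := moves_one s hs _ h1
  refine ⟨c, hc, ?_⟩
  have hu : IsUnit A.det := isUnit_iff_ne_zero.mpr hA.1
  have h3 : A * (A⁻¹ * B) = B := Matrix.mul_nonsing_inv_cancel_left A B hu
  rw [← h3, h2, Matrix.mul_smul, Matrix.mul_one]

theorem val_ex {k : Type*} [Field k] [CharZero k] (s : k) (hs : s ^ 4 - s ^ 2 + 4 = 0)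
    (π : Equiv.Perm (Fin 6)) (hπ : π ∈ alternatingGroup (Fin 6)) :
    ∃ A : Matrix (Fin 3) (Fin 3) k, Moves s A π := by
  have h := gen_six hπ
  clear hπ
  induction h using Subgroup.closure_induction with
  | mem x hx =>
    simp only [Set.mem_insert_iff, Set.mem_singleton_iff] at hx
    rcases hx with rfl | rfl | rfl
    · exact ⟨_, moves_D s hs⟩
    · exact ⟨_, moves_P s hs⟩
    · exact ⟨_, moves_H s hs⟩
  | one =>
    have h1 := moves_mul s _ _ _ _ (moves_inv s _ _ (moves_D s hs)) (moves_D s hs)
    rw [inv_mul_cancel] at h1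
    exact ⟨_, h1⟩
  | mul x y _ _ hx hy =>
    obtain ⟨A, hA⟩ := hx
    obtain ⟨B, hB⟩ := hy
    exact ⟨_, moves_mul s _ _ _ _ hA hB⟩
  | inv x _ hx =>
    obtain ⟨A, hA⟩ := hx
    exact ⟨_, moves_inv s _ _ hA⟩

theorem val_noeig {K : Type*} [Field K] [CharZero K] (w d e c c' : K) (hw : w ^ 2 + w + 1 = 0)
    (hd : d ≠ 0) (he : e ≠ 0) (x y z : K)
    (h1 : d * x = c * x) (h2 : d * (w * y) = c * y) (h3 : d * (w ^ 2 * z) = c * z)
    (h4 : e * y = c' * x) (h5 : e * z = c' * y) (h6 : e * x = c' * z) :
    x = 0 ∧ y = 0 ∧ z = 0 := by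
  have hw0 : w ≠ 0 := by
    rintro rfl
    norm_num at hw
  have hw1 : w - 1 ≠ 0 := by
    intro h
    have h0 : w = 1 := by linear_combination h
    rw [h0] at hw
    norm_num at hw
  have hw2 : w ^ 2 - 1 ≠ 0 := by
    intro h
    have h0 : w = -2 := by linear_combination hw - h
    rw [h0] at hw
    norm_num at hw
  have hxy : x * y = 0 := by
    have : d * (w - 1) * (x * y) = 0 := by linear_combination x * h2 - y * h1
    rcases mul_eq_zero.mp this with h | h
    · exact absurd h (mul_ne_zero hd hw1)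
    · exact h
  have hyz : y * z = 0 := by
    have : d * w * (w - 1) * (y * z) = 0 := by linear_combination y * h3 - z * h2
    rcases mul_eq_zero.mp this with h | h
    · exact absurd h (mul_ne_zero (mul_ne_zero hd hw0) hw1)
    · exact h
  have hxz : x * z = 0 := by
    have : d * (w ^ 2 - 1) * (x * z) = 0 := by linear_combination x * h3 - z * h1
    rcases mul_eq_zero.mp this with h | h
    · exact absurd h (mul_ne_zero hd hw2)
    · exact h
  have hx : x = 0 := by
    by_contra hx
    have hz : z = 0 := (mul_eq_zero.mp hxz).resolve_left hx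
    rw [hz, mul_zero] at h6
    exact (mul_ne_zero he hx) h6
  have hy : y = 0 := by
    rw [hx, mul_zero] at h4
    exact (mul_eq_zero.mp h4).resolve_left he
  have hz : z = 0 := by
    rw [hy, mul_zero] at h5
    exact (mul_eq_zero.mp h5).resolve_left he
  exact ⟨hx, hy, hz⟩

theorem val {k K : Type*} [Field k] [Field K] [Algebra k K] [CharZero k] [IsAlgClosed k] :
    ∃ A : Equiv.Perm (Fin 6) → Matrix (Fin 3) (Fin 3) k, ProjRep k K A := by
  classical
  have hs0 : ∃ s : k, s ^ 4 - s ^ 2 + 4 = 0 := by
    obtain ⟨s, hs⟩ := IsAlgClosed.exists_root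
      (Polynomial.X ^ 4 - Polynomial.X ^ 2 + Polynomial.C 4 : Polynomial k) (by
        have : (Polynomial.X ^ 4 - Polynomial.X ^ 2 + Polynomial.C 4 : Polynomial k).degree = 4 := by
          compute_degree!
        rw [this]
        norm_num)
    refine ⟨s, ?_⟩
    simpa [Polynomial.IsRoot] using hs
  obtain ⟨s, hs⟩ := hs0
  set A : Equiv.Perm (Fin 6) → Matrix (Fin 3) (Fin 3) k :=
    fun π => if h : ∃ A, Moves s A π then h.choose else 1 with hAdef
  have hA : ∀ π ∈ alternatingGroup (Fin 6), Moves s (A π) π := by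
    intro π hπ
    have h := val_ex s hs π hπ
    simp only [hAdef]
    rw [dif_pos h]
    exact h.choose_spec
  refine ⟨A, ?_, ?_, ?_⟩
  · intro π
    by_cases h : ∃ A, Moves s A π
    · simp only [hAdef]
      rw [dif_pos h]
      exact h.choose_spec.1
    · simp only [hAdef]
      rw [dif_neg h, Matrix.det_one]
      exact one_ne_zero
  · intro π hπ π' hπ'
    obtain ⟨c, _, hc⟩ := val_uniq s hs _ _ _ (moves_mul s _ _ _ _ (hA π hπ) (hA π' hπ'))
      (hA (π * π') (mul_mem hπ hπ'))
    exact ⟨c, hc⟩
  · intro v hv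
    by_contra hcon
    push Not at hcon
    have hD : Equiv.swap 0 1 * Equiv.swap 1 2 ∈ alternatingGroup (Fin 6) := by
      rw [Equiv.Perm.mem_alternatingGroup, Equiv.Perm.sign_mul, Equiv.Perm.sign_swap (by decide),
        Equiv.Perm.sign_swap (by decide)]
      rfl
    have hP : Equiv.swap 3 5 * Equiv.swap 5 4 ∈ alternatingGroup (Fin 6) := by
      rw [Equiv.Perm.mem_alternatingGroup, Equiv.Perm.sign_mul, Equiv.Perm.sign_swap (by decide),
        Equiv.Perm.sign_swap (by decide)]
      rfl
    obtain ⟨d, hd, hd'⟩ := val_uniq s hs _ _ _ (moves_D s hs) (hA _ hD)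
    obtain ⟨e, he, he'⟩ := val_uniq s hs _ _ _ (moves_P s hs) (hA _ hP)
    obtain ⟨c, hc⟩ := hcon _ hD
    obtain ⟨c', hc'⟩ := hcon _ hP
    rw [hd'] at hc
    rw [he'] at hc'
    have : CharZero K := charZero_of_injective_algebraMap (algebraMap k K).injective
    have hw : (algebraMap k K (om s)) ^ 2 + algebraMap k K (om s) + 1 = 0 := by
      have := congrArg (algebraMap k K) (om_sq s hs)
      simpa using this
    have e0 := congrFun hc 0
    have e1 := congrFun hc 1
    have e2 := congrFun hc 2
    have f0 := congrFun hc' 0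
    have f1 := congrFun hc' 1
    have f2 := congrFun hc' 2
    simp [Matrix.mulVec, dotProduct, Fin.sum_univ_three] at e0 e1 e2 f0 f1 f2
    have hall := val_noeig (algebraMap k K (om s)) (algebraMap k K d) (algebraMap k K e) c c' hw
      (by simpa using hd) (by simpa using he) (v 0) (v 1) (v 2)
      (by rcases e0 with h | h
          · linear_combination (v 0) * h
          · rw [h]; ring)
      (by rcases e1 with h | h
          · linear_combination (v 1) * h
          · rw [h]; ring)
      (by rcases e2 with h | h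
          · linear_combination (v 2) * h
          · rw [h]; ring)
      (by linear_combination f0) (by linear_combination f1) (by linear_combination f2)
    apply hv
    funext i
    fin_cases i
    · exact hall.1
    · exact hall.2.1
    · exact hall.2.2

end Pool.Agent.Helper273.Sup
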