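import Pool.Agent.Helper273.Six.Defs
import Pool.Agent.Helper273.Six.P_val
import Pool.Agent.Helper273.Six.P_twist
import Pool.Agent.Helper273.Six.P_eig_mem
import Pool.Agent.Helper273.Six.P_proj_line
import Pool.Agent.Helper273.Six.P_line_stable
import Pool.Agent.Helper273.Six.P_realise2
import Pool.Agent.Helper273.Six.P_normal_six
import Pool.Agent.Helper273.Sup.P_galois_mem
import Pool.Agent.Helper273.Sup.P_alg_of_le
import Pool.Agent.Helper273.Sup.P_roots_indep
import Pool.Agent.Helper273.Sup.P_exists_hom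
import Pool.Agent.Helper273.Sup.P_le_step
import Pool.Agent.Helper273.Sup.P_step_mono
import Pool.Agent.Helper273.Sup.P_curve_trick
import Pool.Agent.Helper273.Sup.P_even_perm



namespace Pool.Agent.Helper273.Sup
open IntermediateField


theorem sextic {k K : Type*} [Field k] [Field K] [Algebra k K] [IsAlgClosed k] [CharZero k]
    [IsAlgClosed K] (x y : Fin 6 → K) (hx : Gen k x) (hy : IsRoots x y) (i : Fin 6) :
    y i ∈ step 2 (step 2 (adjoin k (Set.range x))) := by
  rcases realise2 (by norm_num) 2 (by norm_num) x y hx hy with h | hall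
  · exact le_step 2 (by norm_num) _ (h i)
  obtain ⟨A, hA1, hA2, hA3⟩ := val (k := k) (K := K)
  have hyi : AlgebraicIndependent k y := roots_indep x y hx hy
  obtain ⟨M, hM0, hM⟩ := twist A hA1 hA2 y hyi
  have hF : ∀ l : K, (M - l • 1).det = 0 → l ∈ step 2 (adjoin k (Set.range x)) :=
    fun l hl => eig_mem x y hx hy A hA1 M hM l hl
  have hle : adjoin k (Set.range x) ≤ step 2 (adjoin k (Set.range x)) :=
    le_step 2 (by norm_num) _
  have hFalg : Algebra.IsAlgebraic (step 2 (adjoin k (Set.range x))) K :=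
    alg_of_le _ _ hle hx.alg
  have hev0 : ∀ σ : K ≃ₐ[k] K, (∀ b ∈ step 2 (adjoin k (Set.range x)), σ b = b) →
      ∃ π ∈ alternatingGroup (Fin 6), ∀ i, σ (y i) = y (π i) := by
    intro σ hσ
    obtain ⟨ρ, hρ⟩ := exists_hom x y hx hy
    have hmem : σ ∈ (adjoin k (Set.range x)).fixingSubgroup := by
      rw [IntermediateField.mem_fixingSubgroup_iff]
      intro b hb
      exact hσ b (hle hb)
    have h1 : ∀ i, σ (y i) = y (ρ ⟨σ, hmem⟩ i) := fun i => hρ ⟨σ, hmem⟩ i
    refine ⟨ρ ⟨σ, hmem⟩, ?_, h1⟩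
    exact even_perm x y hx hy σ (fun b hb => hσ b (step_mono 1 2 (by norm_num) _ hb)) _ h1
  obtain ⟨v, i0, hv0, hv⟩ := proj_line A hA1 y (step 2 (adjoin k (Set.range x))) M hM0 hM hF
  set F := step 2 (adjoin k (Set.range x)) with hFd
  have hstab : ∀ σ : K ≃ₐ[k] K, (∀ b ∈ F, σ b = b) →
      ∀ i, σ (v i) ∈ adjoin k (Set.range v) := by
    intro σ hσ
    obtain ⟨π, hπ, hπy⟩ := hev0 σ hσ
    obtain ⟨c, hc⟩ := hv σ hσ π hπ hπy
    exact line_stable (A π) (hA1 π) v i0 hv0 σ c hc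
  set u : Fin 2 → K := fun j => v (i0.succAbove j) with hu
  have huv : adjoin k (Set.range v) ≤ adjoin k (Set.range u) := by
    rw [adjoin_le_iff]
    rintro _ ⟨j, rfl⟩
    rcases Fin.eq_self_or_eq_succAbove i0 j with h | ⟨j', h⟩
    · rw [h, hv0]; exact one_mem _
    · rw [h]; exact subset_adjoin k _ ⟨j', rfl⟩
  have hu2 : ∀ j, u j ∈ step 2 F := by
    apply curve_trick F hFalg u
    intro σ hσ j
    exact huv (hstab σ hσ (i0.succAbove j))
  have hv2 : ∀ j, v j ∈ step 2 F := by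
    intro j
    rcases Fin.eq_self_or_eq_succAbove i0 j with h | ⟨j', h⟩
    · rw [h, hv0]; exact one_mem _
    · rw [h]; exact hu2 j'
  have hvne : v ≠ 0 := by
    intro h
    rw [h] at hv0
    exact zero_ne_one hv0
  obtain ⟨π0, hπ0, hπ0'⟩ := hA3 v hvne
  have hne : ∃ π ∈ alternatingGroup (Fin 6), ∀ σ : K ≃ₐ[k] K, (∀ b ∈ F, σ b = b) →
      (∀ i, σ (y i) = y (π i)) → ∃ i, σ (v i) ≠ v i := by
    refine ⟨π0, hπ0, fun σ hσ hσy => ?_⟩
    by_contra hcon
    push Not at hcon
    obtain ⟨c, hc⟩ := hv σ hσ π0 hπ0 hσy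
    have h1 : (fun i => σ (v i)) = v := funext hcon
    rw [h1] at hc
    exact hπ0' c hc
  have hnorm := normal_six F y hyi.injective v hev0 hall hstab hne
  have hmem := galois_mem F hFalg (Set.range v) (y i) (fun σ hσ hσv =>
    hnorm σ hσ (fun j => hσv _ ⟨j, rfl⟩) i)
  have hfin : adjoin k ((F : Set K) ∪ Set.range v) ≤ step 2 F := by
    rw [adjoin_le_iff]
    rintro b (hb | ⟨j, rfl⟩)
    · exact le_step 2 (by norm_num) _ hb
    · exact hv2 j
  exact hfin hmem

end Pool.Agent.Helper273.Sup
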