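import Pool.Agent.Helper273.Sup.Main
import Pool.Agent.Helper273.Six.P_sextic

namespace Pool.Agent.Helper273.Sup

open IntermediateField

theorem main_six (k : Type*) [Field k] [IsAlgClosed k] [CharZero k] (K : Type*) [Field K]
    [Algebra k K] [IsAlgClosed K] (x : Fin 6 → K)
    (hx : AlgebraicIndependent k x) (hK : Algebra.IsAlgebraic (adjoin k (Set.range x)) K)
    (f : K) (hf : f ^ 6 + ∑ i : Fin 6, x i * f ^ (6 - 1 - (i : ℕ)) = 0) :
    IsLeast {s | 1 ≤ s ∧ f ∈ tower k x 2 s} 3 ∧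
      ∀ r, 3 ≤ r → IsLeast {s | 1 ≤ s ∧ f ∈ tower k x r s} 2 := by
  obtain ⟨-, -, -, h5⟩ := main k K 6 x hx hK f hf
  obtain ⟨h6, h7⟩ := h5 (by norm_num)
  have hg : Gen k x := ⟨hx, hK⟩
  obtain ⟨y, hy⟩ := exists_roots x
  obtain ⟨i0, hi0⟩ := root_mem x y hy f hf
  refine ⟨⟨⟨by norm_num, ?_⟩, ?_⟩, fun r hr => h6 r (by omega)⟩
  · have three : tower k x 2 3 = step 2 (step 2 (adjoin k (Set.range x))) := rfl
    rw [three, hi0]
    exact sextic x y hg hy i0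
  · rintro s ⟨hs, hs'⟩
    exact h7 2 (by norm_num) s hs hs'

end Pool.Agent.Helper273.Sup
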